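import Pool.Agent.H63.MG.Bad

/-! The asymptotic inequality. -/

set_option autoImplicit false
open Finset

namespace Pool.Agent.H63.MG

theorem tc_le_one (c : ℕ) : tc c ≤ 1 := by
  unfold tc
  exact Nat.lt_succ_iff.1 (Nat.mod_lt _ (by norm_num))

theorem exists_bad {V : Type} (rel : V → V → ℕ) (hG : Good rel) (k : ℕ) (hk : 4 ≤ k)
    (f : Fin k → V) (hf : ¬ Cl (fun i j => rel (f i) (f j))) :
    ∃ h : Fin 4 → Fin k, Function.Injective h ∧ Bad4 rel (f ∘ h) := by
  classical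
  obtain ⟨y, hy⟩ : ∃ y : Fin 5 → Fin k, TF (fun i j => rel (f i) (f j)) y := by
    by_contra hno
    push Not at hno
    exact hf (Cl_of _ hno)
  have hy' : TF rel (fun a => f (y a)) := TF_congr _ _ _ _ (fun a b => rfl) hy
  have hni : ¬ Function.Injective (fun a => f (y a)) := fun h => hG.h5 _ h hy'
  unfold Function.Injective at hni
  push Not at hni
  obtain ⟨p, q, hpq, hne⟩ := hni
  have hc : ((univ.erase q).image y).card ≤ 4 := by
    refine card_image_le.trans ?_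
    rw [card_erase_of_mem (mem_univ _), card_univ, Fintype.card_fin]
  obtain ⟨J, hJ, -, hJc⟩ := exists_subsuperset_card_eq (subset_univ _) hc
    (by rw [card_univ, Fintype.card_fin]; exact hk)
  have hs : ∀ a : Fin 5, ∃ s : Fin 4, f (J.orderEmbOfFin hJc s) = f (y a) := by
    have h1 : ∀ a : Fin 5, a ≠ q → ∃ s : Fin 4, f (J.orderEmbOfFin hJc s) = f (y a) := by
      intro a ha
      have : y a ∈ J := hJ (mem_image.2 ⟨a, mem_erase.2 ⟨ha, mem_univ _⟩, rfl⟩)
      have hr : y a ∈ Set.range (J.orderEmbOfFin hJc) := by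
        rw [range_orderEmbOfFin]
        exact this
      obtain ⟨s, hs⟩ := hr
      exact ⟨s, by rw [hs]⟩
    intro a
    by_cases ha : a = q
    · obtain ⟨s, hs⟩ := h1 p hne
      exact ⟨s, by rw [hs, ha]; exact hpq⟩
    · exact h1 a ha
  choose s hs using hs
  refine ⟨J.orderEmbOfFin hJc, (J.orderEmbOfFin hJc).injective, s, ?_⟩
  refine TF_congr _ _ _ _ (fun a b => ?_) hy'
  show rel (f (J.orderEmbOfFin hJc (s a))) (f (J.orderEmbOfFin hJc (s b))) = _
  rw [hs, hs]

/-- closed case, uniform weights -/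
theorem closed_unif (k : ℕ) (hk : 1 ≤ k) (rel : Fin k → Fin k → ℕ)
    (hrel : ∀ x y, Pr (rel x y) (rel y x)) (hz : ∀ x, rel x x = 0) (hcl : Cl rel) :
    (1 / 4 : ℝ) * (k : ℝ) ^ 3 ≤ ∑ i, ∑ j, ∑ l, (tc (c3 rel i j l) : ℝ) := by
  have hk0 : (0 : ℝ) < k := by exact_mod_cast hk
  have h := closed_bound hrel hz hcl (fun _ => (1 / k : ℝ)) (fun _ => by positivity)
    (by rw [sum_const, card_univ, Fintype.card_fin, nsmul_eq_mul]; field_simp)
  simp only [← mul_sum] at h
  have e : (1 / k : ℝ) * (1 / k) * (1 / k) * (k : ℝ) ^ 3 = 1 := by field_simp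
  have h2 := mul_le_mul_of_nonneg_right h (by positivity : (0 : ℝ) ≤ (k : ℝ) ^ 3)
  calc (1 / 4 : ℝ) * (k : ℝ) ^ 3 ≤ _ := h2
    _ = ((1 / k : ℝ) * (1 / k) * (1 / k) * (k : ℝ) ^ 3) *
        ∑ i, ∑ j, ∑ l, (tc (c3 rel i j l) : ℝ) := by ring
    _ = _ := by rw [e, one_mul]

open Classical in
theorem asym0 (r : ℕ) (ε : ℝ) (hε : 0 < ε) : ∃ m0 : ℕ, ∀ (V : Type) [Fintype V],
    m0 ≤ Fintype.card V → ∀ rel : V → V → ℕ, Good rel → (∀ f : Fin r → V, ¬ Chain rel r f) →
    (1 / 4 - ε) * (Fintype.card V : ℝ) ^ 3 ≤ ∑ a, ∑ b, ∑ d, (tc (c3 rel a b d) : ℝ) := by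
  obtain ⟨k, hk⟩ : ∃ k : ℕ, max 4 (6 / ε) ≤ (k : ℝ) := exists_nat_ge _
  have hk4 : 4 ≤ k := by exact_mod_cast (le_max_left _ _).trans hk
  have hkε : 6 / ε ≤ k := (le_max_right _ _).trans hk
  have hk0 : (0 : ℝ) < k := by
    have : (4 : ℝ) ≤ k := by exact_mod_cast hk4
    linarith
  obtain ⟨m0, hm0⟩ := few_bad r (ε / (2 * (k : ℝ) ^ 4)) (by positivity)
  refine ⟨max m0 1, fun V _ hV rel hG hr => ?_⟩
  have hV1 : 0 < Fintype.card V := (le_max_right _ _).trans hV
  have hne : Nonempty V := Fintype.card_pos_iff.1 hV1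
  have hB := hm0 V ((le_max_left _ _).trans hV) rel hG hr
  have hF := card_exists (k := k) (univ.filter fun x : Fin 4 → V => Bad4 rel x) _ hB hV1
    (univ.filter fun f : Fin k → V => ¬ Cl (fun i j => rel (f i) (f j)))
    (fun f hf => by
      obtain ⟨h, hi, hb⟩ := exists_bad rel hG k hk4 f (mem_filter.1 hf).2
      exact ⟨h, hi, mem_filter.2 ⟨mem_univ _, hb⟩⟩)
  have e : (k : ℝ) ^ 4 * (ε / (2 * (k : ℝ) ^ 4)) = ε / 2 := by field_simp
  rw [e] at hF
  have hA := avg (fun a b d => (tc (c3 rel a b d) : ℝ)) (fun _ _ _ => Nat.cast_nonneg _)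
    (fun _ _ _ => by exact_mod_cast tc_le_one _) k (by omega) (1 / 4) (ε / 2) (by norm_num)
    (univ.filter fun f : Fin k → V => ¬ Cl (fun i j => rel (f i) (f j))) hF
    (fun f hf => by
      have hcl : Cl (fun i j => rel (f i) (f j)) := by
        by_contra hno
        exact hf (mem_filter.2 ⟨mem_univ _, hno⟩)
      exact closed_unif k (by omega) (fun i j => rel (f i) (f j)) (fun _ _ => hG.hrel _ _)
        (fun _ => hG.hz _) hcl)
  refine le_trans (mul_le_mul_of_nonneg_right ?_ (by positivity)) hA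
  have h3 : 3 / (k : ℝ) ≤ ε / 2 := by
    rw [div_le_iff₀ hk0]
    rw [div_le_iff₀ hε] at hkε
    linarith
  nlinarith

open Classical in
theorem asym1 (r : ℕ) (ε : ℝ) (hε : 0 < ε) : ∃ δ : ℝ, 0 < δ ∧ ∃ n0 : ℕ, ∀ (V : Type) [Fintype V],
    n0 ≤ Fintype.card V → ∀ rel : V → V → ℕ, Good rel →
    ((univ.filter fun f : Fin r → V => Chain rel r f).card : ℝ) ≤ δ * (Fintype.card V : ℝ) ^ r →
    (1 / 4 - ε) * (Fintype.card V : ℝ) ^ 3 ≤ ∑ a, ∑ b, ∑ d, (tc (c3 rel a b d) : ℝ) := by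
  by_cases hbig : 1 / 4 ≤ ε
  · refine ⟨1, one_pos, 0, fun V _ _ rel _ _ => ?_⟩
    have h1 : (1 / 4 - ε) * (Fintype.card V : ℝ) ^ 3 ≤ 0 :=
      mul_nonpos_of_nonpos_of_nonneg (by linarith) (by positivity)
    refine h1.trans (sum_nonneg fun _ _ => sum_nonneg fun _ _ => sum_nonneg fun _ _ => ?_)
    exact Nat.cast_nonneg _
  push Not at hbig
  obtain ⟨m0, hm0⟩ := asym0 r (ε / 4) (by positivity)
  obtain ⟨m, hm⟩ : ∃ m : ℕ, max ((max m0 1 : ℕ) : ℝ) (12 / ε) ≤ (m : ℝ) := exists_nat_ge _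
  have hm1 : max m0 1 ≤ m := by
    have := (le_max_left _ _).trans hm
    exact_mod_cast this
  have hmε : 12 / ε ≤ m := (le_max_right _ _).trans hm
  have hmpos : 0 < m := (le_max_right _ _).trans hm1
  have hmr : (0 : ℝ) < m := by exact_mod_cast hmpos
  obtain ⟨n0, hn0⟩ : ∃ n0 : ℕ, max 1 (4 * (m : ℝ) ^ 2 / ε) ≤ (n0 : ℝ) := exists_nat_ge _
  refine ⟨ε / (4 * (m : ℝ) ^ r), by positivity, n0, fun V _ hV rel hG hch => ?_⟩
  have hVn : (n0 : ℝ) ≤ Fintype.card V := by exact_mod_cast hV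
  have hV1 : (1 : ℝ) ≤ Fintype.card V := (le_max_left _ _).trans (hn0.trans hVn)
  have hV2 : 4 * (m : ℝ) ^ 2 / ε ≤ Fintype.card V := (le_max_right _ _).trans (hn0.trans hVn)
  have hV0 : 0 < Fintype.card V := by exact_mod_cast hV1
  have hVr : (0 : ℝ) < Fintype.card V := by linarith
  have hne : Nonempty V := Fintype.card_pos_iff.1 hV0
  set n : ℝ := (Fintype.card V : ℝ) with hn
  have hF1 := card_exists (k := m) (univ.filter fun f : Fin r → V => Chain rel r f) _ hch hV0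
    (univ.filter fun f : Fin m → V => ∃ h : Fin r → Fin m, Chain rel r (f ∘ h))
    (fun f hf => by
      obtain ⟨h, hc⟩ := (mem_filter.1 hf).2
      refine ⟨h, fun a b hab => ?_, mem_filter.2 ⟨mem_univ _, hc⟩⟩
      rcases lt_trichotomy a b with h1 | h1 | h1
      · have := hc a b h1
        rw [Function.comp, Function.comp, hab, hG.hz] at this
        exact absurd this (by decide)
      · exact h1
      · have := hc b a h1
        rw [Function.comp, Function.comp, hab, hG.hz] at this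
        exact absurd this (by decide))
  have hF2 := not_inj_card m hV0 (univ.filter fun f : Fin m → V => ¬ Function.Injective f)
    (fun f hf => (mem_filter.1 hf).2)
  have e1 : (m : ℝ) ^ r * (ε / (4 * (m : ℝ) ^ r)) = ε / 4 := by field_simp
  have e2 : (m : ℝ) ^ 2 * (1 / n) ≤ ε / 4 := by
    rw [mul_one_div, div_le_iff₀ hVr]
    rw [div_le_iff₀ hε] at hV2
    linarith
  rw [e1] at hF1
  have hF3 : (((univ.filter fun f : Fin m → V => ∃ h : Fin r → Fin m, Chain rel r (f ∘ h)) ∪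
      (univ.filter fun f : Fin m → V => ¬ Function.Injective f)).card : ℝ)
      ≤ (ε / 2) * n ^ m := by
    have h1 : (((univ.filter fun f : Fin m → V => ∃ h : Fin r → Fin m, Chain rel r (f ∘ h)) ∪
      (univ.filter fun f : Fin m → V => ¬ Function.Injective f)).card : ℝ)
      ≤ ((univ.filter fun f : Fin m → V => ∃ h : Fin r → Fin m, Chain rel r (f ∘ h)).card : ℝ)
        + ((univ.filter fun f : Fin m → V => ¬ Function.Injective f).card : ℝ) := by
      exact_mod_cast card_union_le _ _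
    have h2 : (m : ℝ) ^ 2 * (1 / n) * n ^ m ≤ ε / 4 * n ^ m :=
      mul_le_mul_of_nonneg_right e2 (by positivity)
    calc _ ≤ _ := h1
      _ ≤ ε / 4 * n ^ m + ε / 4 * n ^ m := add_le_add hF1 (hF2.trans h2)
      _ = _ := by ring
  have hA := avg (fun a b d => (tc (c3 rel a b d) : ℝ)) (fun _ _ _ => Nat.cast_nonneg _)
    (fun _ _ _ => by exact_mod_cast tc_le_one _) m (by omega) (1 / 4 - ε / 4) (ε / 2)
    (by linarith) _ hF3
    (fun f hf => by
      rw [mem_union, not_or] at hf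
      obtain ⟨hf1, hf2⟩ := hf
      have hinj : Function.Injective f := by
        by_contra hno
        exact hf2 (mem_filter.2 ⟨mem_univ _, hno⟩)
      have hG' : Good (fun i j : Fin m => rel (f i) (f j)) :=
        ⟨fun _ _ => hG.hrel _ _, fun _ => hG.hz _, fun y hy ht => hG.h5 (fun a => f (y a))
          (hinj.comp hy) (TF_congr _ _ _ _ (fun _ _ => rfl) ht)⟩
      have h0 := hm0 (Fin m) (by rw [Fintype.card_fin]; exact (le_max_left _ _).trans hm1)
        (fun i j : Fin m => rel (f i) (f j)) hG'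
        (fun h hc => hf1 (mem_filter.2 ⟨mem_univ _, h, hc⟩))
      rw [Fintype.card_fin] at h0
      exact h0)
  refine le_trans (mul_le_mul_of_nonneg_right ?_ (by positivity)) hA
  have h3 : 3 / (m : ℝ) ≤ ε / 4 := by
    rw [div_le_iff₀ hmr]
    rw [div_le_iff₀ hε] at hmε
    linarith
  nlinarith

end Pool.Agent.H63.MG
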