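import Mathlib

/-! Averaging over functions `Fin k → V`. -/

set_option autoImplicit false

namespace Pool.Agent.H63.MG

open Finset

theorem sum_comp_inj {V : Type} [Fintype V] {r k : ℕ} (h : Fin r → Fin k)
    (hh : Function.Injective h) (g : (Fin r → V) → ℝ) :
    (Fintype.card V : ℝ) ^ r * ∑ f : Fin k → V, g (f ∘ h) =
      (Fintype.card V : ℝ) ^ k * ∑ u, g u := by
  classical
  let e1 : (Fin k → V) ≃ ({x // x ∈ Set.range h} → V) × ({x // ¬ x ∈ Set.range h} → V) :=
    Equiv.piEquivPiSubtypeProd (fun x => x ∈ Set.range h) (fun _ => V)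
  let e2 : ({x // x ∈ Set.range h} → V) ≃ (Fin r → V) :=
    Equiv.arrowCongr (Equiv.ofInjective h hh).symm (Equiv.refl V)
  let e : (Fin k → V) ≃ (Fin r → V) × ({x // ¬ x ∈ Set.range h} → V) :=
    e1.trans (Equiv.prodCongr e2 (Equiv.refl _))
  have he : ∀ f, (e f).1 = f ∘ h := by
    intro f
    ext i
    rfl
  have h1 : ∑ f : Fin k → V, g (f ∘ h) =
      ∑ q : (Fin r → V) × ({x // ¬ x ∈ Set.range h} → V), g q.1 := by
    rw [← Equiv.sum_comp e]
    exact sum_congr rfl fun f _ => by rw [he]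
  have h2 : Fintype.card (Fin k → V) =
      Fintype.card (Fin r → V) * Fintype.card ({x // ¬ x ∈ Set.range h} → V) := by
    rw [Fintype.card_congr e, Fintype.card_prod]
  rw [Fintype.card_fun, Fintype.card_fun, Fintype.card_fin, Fintype.card_fin] at h2
  have h3 : (Fintype.card V : ℝ) ^ k = (Fintype.card V : ℝ) ^ r *
      (Fintype.card ({x // ¬ x ∈ Set.range h} → V) : ℝ) := by
    exact_mod_cast h2
  rw [h1, Fintype.sum_prod_type, h3, mul_assoc]
  congr 1
  rw [mul_sum]
  refine sum_congr rfl fun u _ => ?_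
  change ∑ _y : ({x // ¬ x ∈ Set.range h} → V), g u = _
  rw [sum_const, card_univ, nsmul_eq_mul]

theorem card_exists {V : Type} [Fintype V] [DecidableEq V] {r k : ℕ} (B : Finset (Fin r → V))
    (β : ℝ) (hB : (B.card : ℝ) ≤ β * (Fintype.card V : ℝ) ^ r) (hcard : 0 < Fintype.card V)
    (F : Finset (Fin k → V))
    (hF : ∀ f ∈ F, ∃ h : Fin r → Fin k, Function.Injective h ∧ f ∘ h ∈ B) :
    (F.card : ℝ) ≤ (k : ℝ) ^ r * β * (Fintype.card V : ℝ) ^ k := by
  classical
  have hn : (0 : ℝ) < Fintype.card V := by exact_mod_cast hcard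
  have hβ : 0 ≤ β := by
    by_contra hβ
    push Not at hβ
    have h1 : β * (Fintype.card V : ℝ) ^ r < 0 := mul_neg_of_neg_of_pos hβ (by positivity)
    have h2 : (0 : ℝ) ≤ B.card := Nat.cast_nonneg _
    linarith
  have key : ∀ h : Fin r → Fin k,
      (((univ : Finset (Fin k → V)).filter fun f => Function.Injective h ∧ f ∘ h ∈ B).card : ℝ) ≤
        β * (Fintype.card V : ℝ) ^ k := by
    intro h
    by_cases hh : Function.Injective h
    · have h1 := sum_comp_inj (V := V) h hh (fun u => if u ∈ B then (1 : ℝ) else 0)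
      have h2 : ∑ f : Fin k → V, (if f ∘ h ∈ B then (1 : ℝ) else 0) =
          ((univ : Finset (Fin k → V)).filter fun f => Function.Injective h ∧ f ∘ h ∈ B).card := by
        rw [sum_boole]
        congr 2
        ext f
        simp [hh]
      have h3 : ∑ u : Fin r → V, (if u ∈ B then (1 : ℝ) else 0) = B.card := by
        rw [sum_boole]
        congr 2
        ext f
        simp
      rw [h2, h3] at h1
      have h4 : (Fintype.card V : ℝ) ^ r *
          (((univ : Finset (Fin k → V)).filter fun f =>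
            Function.Injective h ∧ f ∘ h ∈ B).card : ℝ) ≤
          (Fintype.card V : ℝ) ^ r * (β * (Fintype.card V : ℝ) ^ k) := by
        rw [h1]
        calc (Fintype.card V : ℝ) ^ k * B.card ≤
              (Fintype.card V : ℝ) ^ k * (β * (Fintype.card V : ℝ) ^ r) :=
              mul_le_mul_of_nonneg_left hB (by positivity)
          _ = _ := by ring
      exact le_of_mul_le_mul_left h4 (by positivity)
    · have h1 : ((univ : Finset (Fin k → V)).filter fun f =>
          Function.Injective h ∧ f ∘ h ∈ B) = ∅ := by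
        rw [filter_eq_empty_iff]
        intro f _ hf
        exact hh hf.1
      rw [h1, card_empty, Nat.cast_zero]
      positivity
  have hsub : F ⊆ (univ : Finset (Fin r → Fin k)).biUnion fun h =>
      (univ : Finset (Fin k → V)).filter fun f => Function.Injective h ∧ f ∘ h ∈ B := by
    intro f hf
    obtain ⟨h, h1, h2⟩ := hF f hf
    rw [mem_biUnion]
    exact ⟨h, mem_univ _, by rw [mem_filter]; exact ⟨mem_univ _, h1, h2⟩⟩
  calc (F.card : ℝ) ≤ (((univ : Finset (Fin r → Fin k)).biUnion fun h =>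
        (univ : Finset (Fin k → V)).filter fun f =>
          Function.Injective h ∧ f ∘ h ∈ B).card : ℝ) := by
        exact_mod_cast card_le_card hsub
    _ ≤ ∑ h : Fin r → Fin k, (((univ : Finset (Fin k → V)).filter fun f =>
          Function.Injective h ∧ f ∘ h ∈ B).card : ℝ) := by
        exact_mod_cast card_biUnion_le
    _ ≤ ∑ h : Fin r → Fin k, β * (Fintype.card V : ℝ) ^ k := sum_le_sum fun h _ => key h
    _ = (k : ℝ) ^ r * β * (Fintype.card V : ℝ) ^ k := by
        rw [sum_const, card_univ, Fintype.card_fun, Fintype.card_fin, Fintype.card_fin,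
          nsmul_eq_mul]
        push_cast
        ring

theorem avg {V : Type} [Fintype V] [Nonempty V] (t : V → V → V → ℝ) (h0 : ∀ a b c, 0 ≤ t a b c)
    (h1 : ∀ a b c, t a b c ≤ 1) (k : ℕ) (hk : 1 ≤ k) (c β : ℝ) (hc : 0 ≤ c)
    (Bad : Finset (Fin k → V)) (hB : (Bad.card : ℝ) ≤ β * (Fintype.card V : ℝ) ^ k)
    (h : ∀ f : Fin k → V, f ∉ Bad → c * (k : ℝ) ^ 3 ≤ ∑ i, ∑ j, ∑ l, t (f i) (f j) (f l)) :
    (c * (1 - β) - 3 / k) * (Fintype.card V : ℝ) ^ 3 ≤ ∑ a, ∑ b, ∑ d, t a b d := by
  classical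
  obtain ⟨n, hn⟩ : ∃ n : ℝ, n = Fintype.card V := ⟨_, rfl⟩
  rw [← hn] at hB ⊢
  have hn0 : 0 < n := by
    rw [hn]
    exact_mod_cast Fintype.card_pos
  have hk0 : (0 : ℝ) < k := by exact_mod_cast hk
  obtain ⟨T, hT⟩ : ∃ T : ℝ, T = ∑ a, ∑ b, ∑ d, t a b d := ⟨_, rfl⟩
  have hT0 : 0 ≤ T := by
    rw [hT]
    exact sum_nonneg fun a _ => sum_nonneg fun b _ => sum_nonneg fun d _ => h0 a b d
  rw [← hT]
  -- lower bound
  have low : c * (k : ℝ) ^ 3 * ((1 - β) * n ^ k) ≤
      ∑ f : Fin k → V, ∑ i, ∑ j, ∑ l, t (f i) (f j) (f l) := by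
    have a1 : ∑ f : Fin k → V, (if f ∈ Bad then (0 : ℝ) else c * (k : ℝ) ^ 3) ≤
        ∑ f : Fin k → V, ∑ i, ∑ j, ∑ l, t (f i) (f j) (f l) := by
      refine sum_le_sum fun f _ => ?_
      split_ifs with hf
      · exact sum_nonneg fun i _ => sum_nonneg fun j _ => sum_nonneg fun l _ => h0 _ _ _
      · exact h f hf
    have a2 : ∑ f : Fin k → V, (if f ∈ Bad then (0 : ℝ) else c * (k : ℝ) ^ 3) =
        c * (k : ℝ) ^ 3 * (n ^ k - Bad.card) := by
      have a3 : ∀ f : Fin k → V, (if f ∈ Bad then (0 : ℝ) else c * (k : ℝ) ^ 3) =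
          c * (k : ℝ) ^ 3 - (if f ∈ Bad then c * (k : ℝ) ^ 3 else 0) := by
        intro f
        split_ifs <;> ring
      rw [sum_congr rfl fun f _ => a3 f, sum_sub_distrib, sum_const, card_univ,
        Fintype.card_fun, Fintype.card_fin, nsmul_eq_mul, ← sum_filter, sum_const,
        nsmul_eq_mul, filter_mem_eq_inter, univ_inter, hn]
      push_cast
      ring
    refine le_trans ?_ a1
    rw [a2]
    apply mul_le_mul_of_nonneg_left _ (by positivity)
    linarith
  -- upper bound
  have up : n ^ 3 * ∑ f : Fin k → V, ∑ i, ∑ j, ∑ l, t (f i) (f j) (f l) ≤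
      (k : ℝ) ^ 3 * (n ^ k * T) + 3 * (k : ℝ) ^ 2 * (n ^ k * n ^ 3) := by
    have a1 : ∀ i j l : Fin k, n ^ 3 * ∑ f : Fin k → V, t (f i) (f j) (f l) ≤
        n ^ k * T + ((if i = j then n ^ k * n ^ 3 else 0) + (if i = l then n ^ k * n ^ 3 else 0) +
          (if j = l then n ^ k * n ^ 3 else 0)) := by
      intro i j l
      have hnk : 0 ≤ n ^ k * n ^ 3 := by positivity
      have hnT : 0 ≤ n ^ k * T := by positivity
      have triv : n ^ 3 * ∑ f : Fin k → V, t (f i) (f j) (f l) ≤ n ^ k * n ^ 3 := by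
        have b1 : ∑ f : Fin k → V, t (f i) (f j) (f l) ≤ ∑ f : Fin k → V, (1 : ℝ) :=
          sum_le_sum fun f _ => h1 _ _ _
        rw [sum_const, card_univ, Fintype.card_fun, Fintype.card_fin, nsmul_eq_mul, mul_one] at b1
        push_cast at b1
        rw [← hn] at b1
        calc n ^ 3 * ∑ f : Fin k → V, t (f i) (f j) (f l) ≤ n ^ 3 * n ^ k :=
              mul_le_mul_of_nonneg_left b1 (by positivity)
          _ = _ := by ring
      by_cases hij : i = j
      · rw [if_pos hij]
        have : 0 ≤ (if i = l then n ^ k * n ^ 3 else 0) := by split_ifs <;> linarith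
        have : 0 ≤ (if j = l then n ^ k * n ^ 3 else 0) := by split_ifs <;> linarith
        linarith
      · by_cases hil : i = l
        · rw [if_neg hij, if_pos hil]
          have : 0 ≤ (if j = l then n ^ k * n ^ 3 else 0) := by split_ifs <;> linarith
          linarith
        · by_cases hjl : j = l
          · rw [if_neg hij, if_neg hil, if_pos hjl]
            linarith
          · rw [if_neg hij, if_neg hil, if_neg hjl]
            have hinj : Function.Injective ![i, j, l] := by
              intro x y hxy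
              fin_cases x <;> fin_cases y <;> simp_all
            have b1 := sum_comp_inj (V := V) ![i, j, l] hinj
              (fun u => t (u 0) (u 1) (u 2))
            have b2 : ∑ u : Fin 3 → V, t (u 0) (u 1) (u 2) = T := by
              rw [hT, ← (Fin.consEquiv (fun _ : Fin 3 => V)).sum_comp, Fintype.sum_prod_type]
              refine sum_congr rfl fun a _ => ?_
              rw [← (Fin.consEquiv (fun _ : Fin 2 => V)).sum_comp, Fintype.sum_prod_type]
              refine sum_congr rfl fun b _ => ?_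
              rw [← (Fin.consEquiv (fun _ : Fin 1 => V)).sum_comp, Fintype.sum_prod_type]
              refine sum_congr rfl fun d _ => ?_
              simp [Fin.consEquiv]
              rfl
            rw [b2, ← hn] at b1
            have b3 : ∑ f : Fin k → V, t (f i) (f j) (f l) =
                ∑ f : Fin k → V, (fun u : Fin 3 → V => t (u 0) (u 1) (u 2)) (f ∘ ![i, j, l]) :=
              rfl
            rw [b3, b1]
            linarith
    have a2 : n ^ 3 * ∑ f : Fin k → V, ∑ i, ∑ j, ∑ l, t (f i) (f j) (f l) =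
        ∑ i : Fin k, ∑ j : Fin k, ∑ l : Fin k, n ^ 3 * ∑ f : Fin k → V, t (f i) (f j) (f l) := by
      rw [sum_comm, mul_sum]
      refine sum_congr rfl fun i _ => ?_
      rw [sum_comm, mul_sum]
      refine sum_congr rfl fun j _ => ?_
      rw [sum_comm, mul_sum]
    rw [a2]
    refine (sum_le_sum fun i _ => sum_le_sum fun j _ => sum_le_sum fun l _ => a1 i j l).trans ?_
    have a3 : ∑ i : Fin k, ∑ j : Fin k, ∑ l : Fin k, (n ^ k * T +
        ((if i = j then n ^ k * n ^ 3 else 0) + (if i = l then n ^ k * n ^ 3 else 0) +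
          (if j = l then n ^ k * n ^ 3 else 0))) =
        (k : ℝ) ^ 3 * (n ^ k * T) + 3 * (k : ℝ) ^ 2 * (n ^ k * n ^ 3) := by
      simp only [sum_add_distrib, sum_const, card_univ, Fintype.card_fin, nsmul_eq_mul,
        sum_ite_eq, mem_univ, if_true, mul_ite, mul_zero]
      ring
    rw [a3]
  have hfin : c * (k : ℝ) ^ 3 * ((1 - β) * n ^ k) * n ^ 3 ≤
      (k : ℝ) ^ 3 * (n ^ k * T) + 3 * (k : ℝ) ^ 2 * (n ^ k * n ^ 3) := by
    refine le_trans ?_ up
    rw [mul_comm]
    exact mul_le_mul_of_nonneg_left low (by positivity)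
  have e1 : (c * (1 - β) - 3 / k) * n ^ 3 * ((k : ℝ) ^ 3 * n ^ k) =
      c * (k : ℝ) ^ 3 * ((1 - β) * n ^ k) * n ^ 3 - 3 * (k : ℝ) ^ 2 * (n ^ k * n ^ 3) := by
    field_simp
  have e2 : (c * (1 - β) - 3 / k) * n ^ 3 * ((k : ℝ) ^ 3 * n ^ k) ≤ T * ((k : ℝ) ^ 3 * n ^ k) := by
    rw [e1]
    linarith
  exact le_of_mul_le_mul_right e2 (by positivity)

end Pool.Agent.H63.MG
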