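import Mathlib

/-! A Ramsey lemma for relations with four kinds of pairs. -/

set_option autoImplicit false
open Finset

namespace Pool.Agent.H63.MG

theorem ramsey_aux (a b : ℕ) : ∃ N : ℕ, ∀ (V : Type) (rel : V → V → ℕ),
    (∀ x y, rel x y < 4) → (∀ x y, rel x y = 2 → rel y x = 1) → ∀ S : Finset V, N ≤ S.card →
    (∃ x ∈ S, ∃ y ∈ S, x ≠ y ∧ rel x y = 0) ∨
    (∃ l : List V, l.length = b ∧ (∀ x ∈ l, x ∈ S) ∧ l.Pairwise fun x y => rel x y = 1) ∨
    (∃ l : List V, l.length = a ∧ (∀ x ∈ l, x ∈ S) ∧ l.Pairwise fun x y => rel x y = 3) := by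
  induction a generalizing b with
  | zero =>
    exact ⟨0, fun V rel _ _ S _ => Or.inr (Or.inr ⟨[], rfl, by simp, by simp⟩)⟩
  | succ a iha =>
    induction b with
    | zero =>
      exact ⟨0, fun V rel _ _ S _ => Or.inr (Or.inl ⟨[], rfl, by simp, by simp⟩)⟩
    | succ b ihb =>
      obtain ⟨N₁, h₁⟩ := iha (b + 1)
      obtain ⟨N₂, h₂⟩ := ihb
      refine ⟨N₁ + 2 * N₂ + 1, fun V rel h4 h2 S hS => ?_⟩
      classical
      obtain ⟨x, hx⟩ : S.Nonempty := card_pos.1 (by omega)
      by_cases hn : ∃ x ∈ S, ∃ y ∈ S, x ≠ y ∧ rel x y = 0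
      · exact Or.inl hn
      push Not at hn
      right
      set T := S.erase x with hT
      have hTS : ∀ y ∈ T, y ∈ S := fun y hy => mem_of_mem_erase hy
      have hTc : N₁ + 2 * N₂ ≤ T.card := by
        rw [hT, card_erase_of_mem hx]; omega
      have hcov : T ⊆ T.filter (fun y => rel x y = 3) ∪ (T.filter (fun y => rel x y = 1) ∪
          T.filter (fun y => rel x y = 2)) := by
        intro y hy
        simp only [mem_union, mem_filter]
        have h0 := hn x hx y (hTS y hy) (ne_of_mem_erase hy).symm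
        have := h4 x y
        have : rel x y = 3 ∨ rel x y = 1 ∨ rel x y = 2 := by omega
        tauto
      have hc := (card_le_card hcov).trans ((card_union_le _ _).trans
        (Nat.add_le_add_left (card_union_le _ _) _))
      have nz : ∀ U : Finset V, (∀ y ∈ U, y ∈ T) → ¬ ∃ x ∈ U, ∃ y ∈ U, x ≠ y ∧ rel x y = 0 := by
        rintro U hU ⟨p, hp, q, hq, hpq, h0⟩
        exact hn p (hTS p (hU p hp)) q (hTS q (hU q hq)) hpq h0
      rcases (by omega : N₁ ≤ (T.filter (fun y => rel x y = 3)).card ∨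
          N₂ ≤ (T.filter (fun y => rel x y = 1)).card ∨
          N₂ ≤ (T.filter (fun y => rel x y = 2)).card) with h | h | h
      · rcases h₁ V rel h4 h2 _ h with h' | ⟨l, hl, hm, hp⟩ | ⟨l, hl, hm, hp⟩
        · exact absurd h' (nz _ fun y hy => (mem_filter.1 hy).1)
        · exact Or.inl ⟨l, hl, fun y hy => hTS y (mem_filter.1 (hm y hy)).1, hp⟩
        · refine Or.inr ⟨x :: l, by simp [hl], ?_, ?_⟩
          · intro y hy
            rcases List.mem_cons.1 hy with rfl | hy
            · exact hx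
            · exact hTS y (mem_filter.1 (hm y hy)).1
          · exact List.pairwise_cons.2 ⟨fun y hy => (mem_filter.1 (hm y hy)).2, hp⟩
      · rcases h₂ V rel h4 h2 _ h with h' | ⟨l, hl, hm, hp⟩ | ⟨l, hl, hm, hp⟩
        · exact absurd h' (nz _ fun y hy => (mem_filter.1 hy).1)
        · refine Or.inl ⟨x :: l, by simp [hl], ?_, ?_⟩
          · intro y hy
            rcases List.mem_cons.1 hy with rfl | hy
            · exact hx
            · exact hTS y (mem_filter.1 (hm y hy)).1
          · exact List.pairwise_cons.2 ⟨fun y hy => (mem_filter.1 (hm y hy)).2, hp⟩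
        · exact Or.inr ⟨l, hl, fun y hy => hTS y (mem_filter.1 (hm y hy)).1, hp⟩
      · rcases h₂ V rel h4 h2 _ h with h' | ⟨l, hl, hm, hp⟩ | ⟨l, hl, hm, hp⟩
        · exact absurd h' (nz _ fun y hy => (mem_filter.1 hy).1)
        · refine Or.inl ⟨l ++ [x], by simp [hl], ?_, ?_⟩
          · intro y hy
            rcases List.mem_append.1 hy with hy | hy
            · exact hTS y (mem_filter.1 (hm y hy)).1
            · rw [List.mem_singleton.1 hy]
              exact hx
          · rw [List.pairwise_append]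
            refine ⟨hp, by simp, fun y hy z hz => ?_⟩
            rw [List.mem_singleton.1 hz]
            exact h2 x y (mem_filter.1 (hm y hy)).2
        · exact Or.inr ⟨l, hl, fun y hy => hTS y (mem_filter.1 (hm y hy)).1, hp⟩

/-- a large set contains a neutral pair, a transitive tournament on `r` vertices or five pairwise
unrelated vertices -/
theorem ramsey (r : ℕ) : ∃ N : ℕ, ∀ (V : Type) (rel : V → V → ℕ),
    (∀ x y, rel x y < 4) → (∀ x y, rel x y = 2 → rel y x = 1) → ∀ S : Finset V, N ≤ S.card →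
    (∃ x ∈ S, ∃ y ∈ S, x ≠ y ∧ rel x y = 0) ∨
    (∃ f : Fin r → V, ∀ i j, i < j → rel (f i) (f j) = 1) ∨
    (∃ f : Fin 5 → V, ∀ i j, i < j → rel (f i) (f j) = 3) := by
  obtain ⟨N, h⟩ := ramsey_aux 5 r
  refine ⟨N, fun V rel h4 h2 S hS => ?_⟩
  rcases h V rel h4 h2 S hS with h' | ⟨l, hl, hm, hp⟩ | ⟨l, hl, hm, hp⟩
  · exact Or.inl h'
  · right; left
    subst hl
    exact ⟨fun i => l.get i, fun i j hij => List.pairwise_iff_get.1 hp i j hij⟩
  · right; right
    have h5 : l.length = 5 := hl
    refine ⟨fun i => l.get (i.cast h5.symm), fun i j hij => List.pairwise_iff_get.1 hp _ _ ?_⟩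
    exact hij

end Pool.Agent.H63.MG
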