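import Pool.Agent.H63.MG.Core
import Pool.Agent.H63.MG.Ramsey
import Pool.Agent.H63.MG.Avg
import Pool.Graph.R_seed8.TH484.CL.Blow

/-! Few quadruples of vertices have a bad neutral blow-up. -/

set_option autoImplicit false
open Finset

namespace Pool.Agent.H63.MG

/-- some five vertices, chosen with repetition among the four, have no dominated triple -/
def Bad4 {V : Type} (rel : V → V → ℕ) (x : Fin 4 → V) : Prop :=
  ∃ s : Fin 5 → Fin 4, TF rel (fun a => x (s a))

structure Good {V : Type} (rel : V → V → ℕ) : Prop where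
  hrel : ∀ x y, Pr (rel x y) (rel y x)
  hz : ∀ x, rel x x = 0
  h5 : ∀ y : Fin 5 → V, Function.Injective y → ¬ TF rel y

def Chain {V : Type} (rel : V → V → ℕ) (r : ℕ) (f : Fin r → V) : Prop :=
  ∀ i j, i < j → rel (f i) (f j) = 1

theorem not_inj_card {V : Type} [Fintype V] (k : ℕ) (h0 : 0 < Fintype.card V)
    (F : Finset (Fin k → V)) (hF : ∀ f ∈ F, ¬ Function.Injective f) :
    (F.card : ℝ) ≤ (k : ℝ) ^ 2 * (1 / Fintype.card V) * (Fintype.card V : ℝ) ^ k := by
  classical
  have hn : (0 : ℝ) < Fintype.card V := by exact_mod_cast h0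
  refine card_exists (r := 2) (univ.image fun v : V => (fun _ : Fin 2 => v)) (1 / Fintype.card V)
    ?_ h0 F ?_
  · have h1 : ((univ.image fun v : V => (fun _ : Fin 2 => v)).card : ℝ) ≤ Fintype.card V := by
      exact_mod_cast card_image_le
    refine h1.trans (le_of_eq ?_)
    field_simp
  · intro f hf
    have h := hF f hf
    unfold Function.Injective at h
    push Not at h
    obtain ⟨a, b, hab, hne⟩ := h
    refine ⟨![a, b], ?_, ?_⟩
    · intro i j hij
      fin_cases i <;> fin_cases j
      · rfl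
      · exact absurd hij hne
      · exact absurd hij.symm hne
      · rfl
    · rw [mem_image]
      refine ⟨f a, mem_univ _, ?_⟩
      funext i
      fin_cases i
      · rfl
      · exact hab

theorem TF_congr {V W : Type} (rel : V → V → ℕ) (rel' : W → W → ℕ) (y : Fin 5 → V)
    (z : Fin 5 → W) (h : ∀ a b, rel (y a) (y b) = rel' (z a) (z b)) (ht : TF rel' z) :
    TF rel y := by
  intro a b c hab hbc
  have := ht a b c hab hbc
  unfold c3 at this ⊢
  rw [h, h, h]
  exact this

/-- a complete box of bad quadruples of one code is impossible -/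
theorem no_box {V : Type} (rel : V → V → ℕ) (hG : Good rel) (r N t : ℕ)
    (hN : ∀ (V : Type) (rel : V → V → ℕ),
      (∀ x y, rel x y < 4) → (∀ x y, rel x y = 2 → rel y x = 1) → ∀ S : Finset V, N ≤ S.card →
      (∃ x ∈ S, ∃ y ∈ S, x ≠ y ∧ rel x y = 0) ∨
      (∃ f : Fin r → V, ∀ i j, i < j → rel (f i) (f j) = 1) ∨
      (∃ f : Fin 5 → V, ∀ i j, i < j → rel (f i) (f j) = 3))
    (hr : ∀ f : Fin r → V, ¬ Chain rel r f) (htN : N ≤ t)
    (γ : Fin 4 → Fin 4 → ℕ) (τ : Fin 4 → Fin t → V) (hτ : ∀ i, Function.Injective (τ i))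
    (hb : ∀ j : Fin 4 → Fin t, Function.Injective (fun i => τ i (j i)) ∧
      Bad4 rel (fun i => τ i (j i)) ∧ ∀ a b, rel (τ a (j a)) (τ b (j b)) = γ a b) : False := by
  classical
  have h4 : ∀ x y, rel x y < 4 := fun x y => Pr_lt (hG.hrel x y)
  have h21 : ∀ x y, rel x y = 2 → rel y x = 1 := by
    intro x y h
    rcases hG.hrel x y with h' | h' | h' | h' <;> omega
  have h00 : ∀ x y, rel x y = 0 → rel y x = 0 := by
    intro x y h
    rcases hG.hrel x y with h' | h' | h' | h' <;> omega
  have hp : ∀ i : Fin 4, ∃ P : Fin 2 → Fin t, τ i (P 0) ≠ τ i (P 1) ∧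
      rel (τ i (P 0)) (τ i (P 1)) = 0 := by
    intro i
    have hc : N ≤ (univ.image (τ i)).card := by
      rw [card_image_of_injective _ (hτ i), card_univ, Fintype.card_fin]
      exact htN
    rcases hN V rel h4 h21 _ hc with ⟨x, hx, y, hy, hxy, h⟩ | ⟨f, hf⟩ | ⟨f, hf⟩
    · obtain ⟨p, -, rfl⟩ := mem_image.1 hx
      obtain ⟨q, -, rfl⟩ := mem_image.1 hy
      exact ⟨![p, q], hxy, h⟩
    · exact absurd hf (hr f)
    · exfalso
      refine hG.h5 f ?_ ?_
      · intro a b hab
        rcases lt_trichotomy a b with h | h | h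
        · have := hf a b h
          rw [hab, hG.hz] at this
          exact absurd this (by decide)
        · exact h
        · have := hf b a h
          rw [hab, hG.hz] at this
          exact absurd this (by decide)
      · intro a b c hab hbc
        unfold c3
        rw [hf a b hab, hf a c (hab.trans hbc), hf b c hbc]
        decide
  choose P hP1 hP2 using hp
  obtain ⟨hinj0, ⟨s, hs⟩, hc0⟩ := hb (fun i => P i 0)
  obtain ⟨e, he⟩ := bits (fun i j : Fin 4 => rel (τ i (P i 0)) (τ j (P j 0)))
    (fun i => hG.hz _) s (fun a b c hab hbc => hs a b c hab hbc)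
  have hpair : ∀ i : Fin 4, ∀ u v : Fin 2, rel (τ i (P i u)) (τ i (P i v)) = 0 := by
    intro i u v
    fin_cases u <;> fin_cases v
    · exact hG.hz _
    · exact hP2 i
    · exact h00 _ _ (hP2 i)
    · exact hG.hz _
  have hpne : ∀ i : Fin 4, ∀ u v : Fin 2, u ≠ v → τ i (P i u) ≠ τ i (P i v) := by
    intro i u v huv
    fin_cases u <;> fin_cases v
    · exact absurd rfl huv
    · exact hP1 i
    · exact (hP1 i).symm
    · exact absurd rfl huv
  refine hG.h5 (fun a => τ (s a) (P (s a) (e a))) ?_ ?_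
  · intro a b hab
    by_contra hne
    by_cases hsab : s a = s b
    · have hee : e a ≠ e b := fun h => hne (he (Prod.ext hsab h))
      have hab' : τ (s a) (P (s a) (e a)) = τ (s b) (P (s b) (e b)) := hab
      rw [← hsab] at hab'
      exact hpne (s a) _ _ hee hab'
    · have h1 := (hb (fun i => if i = s a then P i (e a) else P i (e b))).1
      have h2 : (fun i => τ i ((fun i => if i = s a then P i (e a) else P i (e b)) i)) (s a)
        = (fun i => τ i ((fun i => if i = s a then P i (e a) else P i (e b)) i)) (s b) := by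
        show τ (s a) (if s a = s a then P (s a) (e a) else P (s a) (e b))
          = τ (s b) (if s b = s a then P (s b) (e a) else P (s b) (e b))
        rw [if_pos rfl, if_neg (fun h => hsab h.symm)]
        exact hab
      exact hsab (h1 h2)
  · refine TF_congr rel (fun i j : Fin 4 => rel (τ i (P i 0)) (τ j (P j 0))) _ s ?_
      (fun a b c hab hbc => hs a b c hab hbc)
    intro a b
    by_cases hsab : s a = s b
    · show rel (τ (s a) (P (s a) (e a))) (τ (s b) (P (s b) (e b)))
        = rel (τ (s a) (P (s a) 0)) (τ (s b) (P (s b) 0))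
      rw [← hsab, hpair, hpair]
    · have h1 : rel (τ (s a) (if s a = s a then P (s a) (e a) else P (s a) (e b)))
          (τ (s b) (if s b = s a then P (s b) (e a) else P (s b) (e b))) = γ (s a) (s b) :=
        (hb (fun i => if i = s a then P i (e a) else P i (e b))).2.2 (s a) (s b)
      rw [if_pos rfl, if_neg (fun h => hsab h.symm)] at h1
      show rel (τ (s a) (P (s a) (e a))) (τ (s b) (P (s b) (e b)))
        = rel (τ (s a) (P (s a) 0)) (τ (s b) (P (s b) 0))
      rw [h1, hc0]

open Classical in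
theorem pigeon {α κ : Type} [Fintype κ] (S : Finset α) (γ : α → κ) (c : ℝ)
    (h : ∀ g, ((S.filter fun x => γ x = g).card : ℝ) < c) :
    (S.card : ℝ) ≤ Fintype.card κ * c := by
  have hfib : S.card = ∑ g : κ, (S.filter fun x => γ x = g).card :=
    card_eq_sum_card_fiberwise fun x _ => mem_coe.2 (mem_univ _)
  rw [hfib]
  push_cast
  refine (sum_le_sum fun g _ => (h g).le).trans ?_
  rw [sum_const, nsmul_eq_mul, card_univ]

open Classical in
theorem few_bad (r : ℕ) (δ : ℝ) (hδ : 0 < δ) : ∃ m0 : ℕ, ∀ (V : Type) [Fintype V],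
    m0 ≤ Fintype.card V → ∀ rel : V → V → ℕ, Good rel → (∀ f : Fin r → V, ¬ Chain rel r f) →
    ((univ.filter fun x : Fin 4 → V => Bad4 rel x).card : ℝ) ≤ δ * (Fintype.card V : ℝ) ^ 4 := by
  obtain ⟨N, hN⟩ := ramsey r
  obtain ⟨K, hK⟩ : ∃ K : ℝ, K = (Fintype.card (Fin 4 → Fin 4 → Fin 4) : ℝ) := ⟨_, rfl⟩
  have hKpos : 0 < K := by
    rw [hK]
    exact Nat.cast_pos.2 Fintype.card_pos
  set δ₀ : ℝ := min 1 (δ / (2 * K)) with hδ₀
  have hδ₀pos : 0 < δ₀ := lt_min one_pos (by positivity)
  obtain ⟨n0, hbox⟩ := Pool.Agent.TH484.CL.box (N + 1) (by omega) 4 δ₀ hδ₀pos (min_le_left _ _)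
  refine ⟨max (max n0 1) ⌈32 / δ⌉₊, fun V _ hV rel hG hr => ?_⟩
  have hV0 : n0 ≤ Fintype.card V := (le_max_left _ _).trans ((le_max_left _ _).trans hV)
  have hV1 : 0 < Fintype.card V := (le_max_right _ _).trans ((le_max_left _ _).trans hV)
  have hVr : (0 : ℝ) < Fintype.card V := by exact_mod_cast hV1
  have hV2 : 32 / δ ≤ Fintype.card V := (Nat.le_ceil _).trans
    (by exact_mod_cast (le_max_right _ _).trans hV)
  set n : ℝ := (Fintype.card V : ℝ) with hn
  set B := univ.filter fun x : Fin 4 → V => Bad4 rel x with hB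
  have h4 : ∀ x y, rel x y < 4 := fun x y => Pr_lt (hG.hrel x y)
  let γ : (Fin 4 → V) → (Fin 4 → Fin 4 → Fin 4) := fun x i j => ⟨rel (x i) (x j), h4 _ _⟩
  have hsplit : B.card = (B.filter fun x => ¬ Function.Injective x).card
      + (B.filter fun x => Function.Injective x).card := by
    rw [add_comm]
    exact (card_filter_add_card_filter_not _).symm
  have hA : ((B.filter fun x => ¬ Function.Injective x).card : ℝ) ≤ δ / 2 * n ^ 4 := by
    refine (not_inj_card 4 hV1 _ fun f hf => (mem_filter.1 hf).2).trans ?_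
    refine mul_le_mul_of_nonneg_right ?_ (by positivity)
    rw [div_le_iff₀ hδ] at hV2
    push_cast
    rw [← hn]
    rw [mul_one_div, div_le_iff₀ hVr]
    nlinarith
  by_contra hcon
  push Not at hcon
  have hex : ∃ g : Fin 4 → Fin 4 → Fin 4, δ₀ * n ^ 4 ≤
      (((B.filter fun x => Function.Injective x).filter fun x => γ x = g).card : ℝ) := by
    by_contra hno
    push Not at hno
    have h1 : ((B.filter fun x => Function.Injective x).card : ℝ) ≤ K * (δ₀ * n ^ 4) := by
      rw [hK]
      refine pigeon _ γ _ fun g => lt_of_eq_of_lt ?_ (hno g)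
      congr
    have h2 : K * (δ₀ * n ^ 4) ≤ δ / 2 * n ^ 4 := by
      rw [← mul_assoc]
      refine mul_le_mul_of_nonneg_right ?_ (by positivity)
      have : δ₀ ≤ δ / (2 * K) := min_le_right _ _
      rw [le_div_iff₀ (by positivity)] at this
      nlinarith
    have h3 : (B.card : ℝ) = ((B.filter fun x => ¬ Function.Injective x).card : ℝ)
      + ((B.filter fun x => Function.Injective x).card : ℝ) := by exact_mod_cast hsplit
    linarith
  obtain ⟨g, hg⟩ := hex
  set D := (B.filter fun x => Function.Injective x).filter fun x => γ x = g with hD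
  obtain ⟨τ, hτ, hj⟩ := hbox V hV0 (fun x => if x ∈ D then 1 else 0)
    (fun x => by split_ifs <;> norm_num) (fun x => by split_ifs <;> norm_num)
    (by rw [sum_boole, filter_mem_eq_inter, univ_inter]; exact hg)
  refine no_box rel hG r N (N + 1) hN hr (by omega) (fun a b => (g a b : ℕ)) τ hτ fun j => ?_
  have hm : (fun i => τ i (j i)) ∈ D := by
    by_contra hnot
    have := hj j
    rw [if_neg hnot] at this
    exact lt_irrefl _ this
  rw [hD, mem_filter, mem_filter, hB, mem_filter] at hm
  refine ⟨hm.1.2, hm.1.1.2, fun a b => ?_⟩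
  have := congrFun (congrFun hm.2 a) b
  exact congrArg Fin.val this

end Pool.Agent.H63.MG
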