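import Pool.Agent.H63.MG.Core
import Pool.Agent.H63.MGS.Defs

/-! Mixed graphs as relation codes (helper68 for helper63). -/

set_option autoImplicit false
set_option maxRecDepth 100000

open Finset Pool.Agent.H63.MGS

namespace Pool.Agent.H63.MG

open Classical in
/-- the relation of two vertices as a code -/
noncomputable def code {V : Type} (G : MixedGraph V) (x y : V) : ℕ :=
  if x = y then 0 else if G.neutral x y then 0 else if G.arrow x y then 1
    else if G.arrow y x then 2 else 3

theorem code_self {V : Type} (G : MixedGraph V) (x : V) : code G x x = 0 := by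
  unfold code
  rw [if_pos rfl]

theorem arrow_irrefl {V : Type} (G : MixedGraph V) (x : V) : ¬ G.arrow x x := fun h =>
  G.arrow_asymm x x h h

theorem code_zero {V : Type} (G : MixedGraph V) {x y : V} (h : x ≠ y) :
    code G x y = 0 ↔ G.neutral x y := by
  unfold code
  rw [if_neg h]
  by_cases h1 : G.neutral x y
  · simp [h1]
  · by_cases h2 : G.arrow x y
    · simp [h1, h2]
    · by_cases h3 : G.arrow y x
      · simp [h1, h2, h3]
      · simp [h1, h2, h3]

theorem code_one {V : Type} (G : MixedGraph V) (x y : V) : code G x y = 1 ↔ G.arrow x y := by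
  by_cases h : x = y
  · subst h
    rw [code_self]
    exact ⟨fun h => absurd h (by norm_num), fun h => absurd h (arrow_irrefl G x)⟩
  · unfold code
    rw [if_neg h]
    by_cases h1 : G.neutral x y
    · have h2 := G.not_both x y h1
      simp [h1, h2]
    · by_cases h2 : G.arrow x y
      · simp [h1, h2]
      · by_cases h3 : G.arrow y x
        · simp [h1, h2, h3]
        · simp [h1, h2, h3]

theorem code_two {V : Type} (G : MixedGraph V) (x y : V) : code G x y = 2 ↔ G.arrow y x := by
  by_cases h : x = y
  · subst h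
    rw [code_self]
    exact ⟨fun h => absurd h (by norm_num), fun h => absurd h (arrow_irrefl G x)⟩
  · unfold code
    rw [if_neg h]
    by_cases h1 : G.neutral x y
    · have h2 := G.not_both y x (G.neutral_symm _ _ h1)
      simp [h1, h2]
    · by_cases h2 : G.arrow x y
      · have h3 := G.arrow_asymm _ _ h2
        simp [h1, h2, h3]
      · by_cases h3 : G.arrow y x
        · simp [h1, h2, h3]
        · simp [h1, h2, h3]

theorem code_lt {V : Type} (G : MixedGraph V) (x y : V) : code G x y < 4 := by
  unfold code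
  split_ifs <;> norm_num

theorem code_pr {V : Type} (G : MixedGraph V) (x y : V) : Pr (code G x y) (code G y x) := by
  by_cases h : x = y
  · subst h
    rw [code_self]
    exact Or.inl ⟨rfl, rfl⟩
  · have h' : y ≠ x := fun h2 => h h2.symm
    have hz : code G x y = 0 ↔ code G y x = 0 := by
      rw [code_zero G h, code_zero G h']
      exact ⟨G.neutral_symm _ _, G.neutral_symm _ _⟩
    have h12 : code G x y = 1 ↔ code G y x = 2 := by rw [code_one, code_two]
    have h21 : code G x y = 2 ↔ code G y x = 1 := by rw [code_one, code_two]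
    have l1 := code_lt G x y
    have l2 := code_lt G y x
    unfold Pr
    omega

theorem tc_iff : ∀ p < 4, ∀ q < 4, ∀ s < 4, (tc (cd p q s) = 0 ↔
    ¬ ((p = 0 ∧ q = 0) ∨ (p = 1 ∧ q = 1) ∨ (p = 0 ∧ s = 0) ∨ (p = 2 ∧ s = 1) ∨ (q = 0 ∧ s = 0) ∨
      (q = 2 ∧ s = 2))) := by
  intro p hp q hq s hs
  interval_cases p <;> interval_cases q <;> interval_cases s <;> decide

theorem tc_le (c : ℕ) : tc c ≤ 1 := by
  have : tc c < 2 := Nat.mod_lt _ (by norm_num)
  omega

theorem dom_iff {V : Type} [DecidableEq V] (G : MixedGraph V) {x y z : V} (hxy : x ≠ y)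
    (hxz : x ≠ z) (hyz : y ≠ z) : G.Dominated {x, y, z} ↔
      ((G.neutral x y ∧ G.neutral x z) ∨ (G.arrow x y ∧ G.arrow x z)) ∨
      ((G.neutral y x ∧ G.neutral y z) ∨ (G.arrow y x ∧ G.arrow y z)) ∨
      ((G.neutral z x ∧ G.neutral z y) ∨ (G.arrow z x ∧ G.arrow z y)) := by
  unfold MixedGraph.Dominated
  simp only [Finset.mem_insert, Finset.mem_singleton, exists_eq_or_imp, exists_eq_left,
    forall_eq_or_imp, forall_eq, ne_eq, not_true_eq_false, true_and, hxy, hxz, hyz,
    hxy.symm, hxz.symm, hyz.symm, not_false_eq_true, true_imp_iff, IsEmpty.forall_iff, and_true]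

theorem tc_code {V : Type} [DecidableEq V] (G : MixedGraph V) (x y z : V) (hxy : x ≠ y)
    (hxz : x ≠ z) (hyz : y ≠ z) :
    tc (c3 (code G) x y z) = 0 ↔ ¬ G.Dominated {x, y, z} := by
  unfold c3
  rw [tc_iff _ (code_lt G x y) _ (code_lt G x z) _ (code_lt G y z), not_iff_not,
    dom_iff G hxy hxz hyz, code_zero G hxy, code_zero G hxz, code_zero G hyz, code_one, code_one,
    code_one, code_two, code_two, code_two]
  have s1 : G.neutral y x ↔ G.neutral x y := ⟨G.neutral_symm _ _, G.neutral_symm _ _⟩
  have s2 : G.neutral z x ↔ G.neutral x z := ⟨G.neutral_symm _ _, G.neutral_symm _ _⟩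
  have s3 : G.neutral z y ↔ G.neutral y z := ⟨G.neutral_symm _ _, G.neutral_symm _ _⟩
  rw [s1, s2, s3]
  tauto

theorem tri_count {n : ℕ} (G : MixedGraph (Fin n)) :
    6 * G.threeGraph.card + ∑ a, ∑ b, ∑ d, tc (c3 (code G) a b d) ≤ n ^ 3 := by
  classical
  set T : Finset (Fin n × Fin n × Fin n) := univ.filter fun t => tc (c3 (code G) t.1 t.2.1 t.2.2) = 0
    with hT
  have h1 : T.card + ∑ a, ∑ b, ∑ d, tc (c3 (code G) a b d) = n ^ 3 := by
    have e1 : ∑ a, ∑ b, ∑ d, tc (c3 (code G) a b d) =
        ∑ t : Fin n × Fin n × Fin n, tc (c3 (code G) t.1 t.2.1 t.2.2) := by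
      rw [Fintype.sum_prod_type]
      refine Finset.sum_congr rfl fun a _ => ?_
      rw [Fintype.sum_prod_type]
    have e2 : T.card = ∑ t : Fin n × Fin n × Fin n,
        if tc (c3 (code G) t.1 t.2.1 t.2.2) = 0 then 1 else 0 := by
      rw [hT, Finset.card_filter]
    rw [e1, e2, ← Finset.sum_add_distrib]
    have e3 : ∀ t : Fin n × Fin n × Fin n,
        (if tc (c3 (code G) t.1 t.2.1 t.2.2) = 0 then 1 else 0) +
          tc (c3 (code G) t.1 t.2.1 t.2.2) = 1 := by
      intro t
      have := tc_le (c3 (code G) t.1 t.2.1 t.2.2)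
      split_ifs with h
      · omega
      · omega
    rw [Finset.sum_congr rfl fun t _ => e3 t, Finset.sum_const, smul_eq_mul, mul_one,
      Finset.card_univ, Fintype.card_prod, Fintype.card_prod, Fintype.card_fin]
    ring
  have h2 : 6 * G.threeGraph.card ≤ T.card := by
    set T' : Finset (Fin n × Fin n × Fin n) := univ.filter fun t =>
      ({t.1, t.2.1, t.2.2} : Finset (Fin n)) ∈ G.threeGraph with hT'
    have h3 : T' ⊆ T := by
      intro t ht
      rw [hT', Finset.mem_filter] at ht
      rw [hT, Finset.mem_filter]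
      refine ⟨Finset.mem_univ _, ?_⟩
      have h4 := ht.2
      unfold MixedGraph.threeGraph at h4
      rw [Finset.mem_filter, Finset.mem_powersetCard] at h4
      obtain ⟨⟨_, h5⟩, h6⟩ := h4
      have hne : t.1 ≠ t.2.1 ∧ t.1 ≠ t.2.2 ∧ t.2.1 ≠ t.2.2 := by
        rw [Finset.card_eq_three] at h5
        obtain ⟨x, y, z, hxy, hxz, hyz, he⟩ := h5
        have hc : ({t.1, t.2.1, t.2.2} : Finset (Fin n)).card = 3 := by
          rw [he]
          exact Finset.card_eq_three.2 ⟨x, y, z, hxy, hxz, hyz, rfl⟩
        refine ⟨fun h => ?_, fun h => ?_, fun h => ?_⟩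
        · rw [h, Finset.insert_eq_of_mem (Finset.mem_insert_self _ _)] at hc
          have := Finset.card_le_two (a := t.2.1) (b := t.2.2)
          omega
        · rw [h, Finset.insert_eq_of_mem
            (Finset.mem_insert_of_mem (Finset.mem_singleton_self _))] at hc
          have := Finset.card_le_two (a := t.2.1) (b := t.2.2)
          omega
        · rw [h, Finset.insert_eq_of_mem (Finset.mem_singleton_self _)] at hc
          have := Finset.card_le_two (a := t.1) (b := t.2.2)
          omega
      exact (tc_code G _ _ _ hne.1 hne.2.1 hne.2.2).2 h6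
    refine le_trans ?_ (Finset.card_le_card h3)
    rw [Finset.card_eq_sum_card_fiberwise (f := fun t => ({t.1, t.2.1, t.2.2} : Finset (Fin n)))
      (s := T') (t := G.threeGraph) (fun t ht => (Finset.mem_filter.1 ht).2), mul_comm,
      ← smul_eq_mul, ← Finset.sum_const]
    refine Finset.sum_le_sum fun e he => ?_
    have h4 := he
    unfold MixedGraph.threeGraph at h4
    rw [Finset.mem_filter, Finset.mem_powersetCard] at h4
    obtain ⟨⟨_, h5⟩, _⟩ := h4
    rw [Finset.card_eq_three] at h5
    obtain ⟨x, y, z, hxy, hxz, hyz, rfl⟩ := h5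
    have h6 : (univ : Finset (Equiv.Perm (Fin 3))).card = 6 := by
      rw [Finset.card_univ, Fintype.card_perm, Fintype.card_fin]
      rfl
    rw [← h6]
    have hv : Function.Injective (![x, y, z] : Fin 3 → Fin n) := by
      intro i j hij
      fin_cases i <;> fin_cases j <;> simp_all
    refine Finset.card_le_card_of_injOn
      (fun σ : Equiv.Perm (Fin 3) => ((![x, y, z] : Fin 3 → Fin n) (σ 0),
        (![x, y, z] : Fin 3 → Fin n) (σ 1), (![x, y, z] : Fin 3 → Fin n) (σ 2))) ?_ ?_
    · intro σ _
      have hS : ({(![x, y, z] : Fin 3 → Fin n) (σ 0), (![x, y, z] : Fin 3 → Fin n) (σ 1),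
          (![x, y, z] : Fin 3 → Fin n) (σ 2)} : Finset (Fin n)) = {x, y, z} := by
        have e1 : ({(![x, y, z] : Fin 3 → Fin n) (σ 0), (![x, y, z] : Fin 3 → Fin n) (σ 1),
          (![x, y, z] : Fin 3 → Fin n) (σ 2)} : Finset (Fin n)) =
            (univ : Finset (Fin 3)).image (fun i => (![x, y, z] : Fin 3 → Fin n) (σ i)) := by
          ext a
          simp only [Finset.mem_insert, Finset.mem_singleton, Finset.mem_image, Finset.mem_univ,
            true_and]
          constructor
          · rintro (h | h | h)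
            · exact ⟨0, h.symm⟩
            · exact ⟨1, h.symm⟩
            · exact ⟨2, h.symm⟩
          · rintro ⟨i, hi⟩
            fin_cases i
            · exact Or.inl hi.symm
            · exact Or.inr (Or.inl hi.symm)
            · exact Or.inr (Or.inr hi.symm)
        have e2 : ({x, y, z} : Finset (Fin n)) =
            (univ : Finset (Fin 3)).image (![x, y, z] : Fin 3 → Fin n) := by
          ext a
          simp only [Finset.mem_insert, Finset.mem_singleton, Finset.mem_image, Finset.mem_univ,
            true_and]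
          constructor
          · rintro (h | h | h)
            · exact ⟨0, h.symm⟩
            · exact ⟨1, h.symm⟩
            · exact ⟨2, h.symm⟩
          · rintro ⟨i, hi⟩
            fin_cases i
            · exact Or.inl hi.symm
            · exact Or.inr (Or.inl hi.symm)
            · exact Or.inr (Or.inr hi.symm)
        rw [e1, e2]
        ext a
        simp only [Finset.mem_image, Finset.mem_univ, true_and]
        constructor
        · rintro ⟨i, hi⟩
          exact ⟨σ i, hi⟩
        · rintro ⟨i, hi⟩
          exact ⟨σ.symm i, by rw [Equiv.apply_symm_apply]; exact hi⟩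
      simp only [Finset.coe_filter, Set.mem_ofPred_eq]
      refine ⟨?_, hS⟩
      rw [hT', Finset.mem_filter]
      refine ⟨Finset.mem_univ _, ?_⟩
      simp only
      rw [hS]
      exact he
    · intro σ _ τ _ hst
      simp only [Prod.mk.injEq] at hst
      obtain ⟨a1, a2, a3⟩ := hst
      refine Equiv.ext fun i => ?_
      fin_cases i
      · exact hv a1
      · exact hv a2
      · exact hv a3
  omega

theorem three_sorted : ∀ e : Finset (Fin 5), e.card = 3 →
    ∃ a b c : Fin 5, a < b ∧ b < c ∧ e = {a, b, c} := by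
  decide

theorem free5 {V : Type} [Fintype V] (G : MixedGraph V) (h : K53Free G.threeGraph)
    (y : Fin 5 → V) (hy : Function.Injective y) : ¬ TF (code G) y := by
  classical
  intro hT
  refine h (univ.image y) ?_ ?_
  · rw [Finset.card_image_of_injective _ hy, Finset.card_univ, Fintype.card_fin]
  · intro e he
    rw [Finset.mem_powersetCard] at he
    obtain ⟨h1, h2⟩ := he
    set e' : Finset (Fin 5) := univ.filter fun i => y i ∈ e with he'
    have h3 : e'.image y = e := by
      ext v
      rw [Finset.mem_image]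
      constructor
      · rintro ⟨i, hi, rfl⟩
        exact (Finset.mem_filter.1 hi).2
      · intro hv
        obtain ⟨i, _, hi⟩ := Finset.mem_image.1 (h1 hv)
        exact ⟨i, Finset.mem_filter.2 ⟨Finset.mem_univ _, by rw [hi]; exact hv⟩, hi⟩
    have h4 : e'.card = 3 := by
      rw [← h2, ← h3, Finset.card_image_of_injective _ hy]
    obtain ⟨a, b, c, hab, hbc, hee⟩ := three_sorted e' h4
    have h5 : e = {y a, y b, y c} := by
      rw [← h3, hee, Finset.image_insert, Finset.image_insert, Finset.image_singleton]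
    unfold MixedGraph.threeGraph
    rw [Finset.mem_filter, Finset.mem_powersetCard]
    refine ⟨⟨Finset.subset_univ _, h2⟩, ?_⟩
    rw [h5]
    have nab : y a ≠ y b := fun h => (ne_of_lt hab) (hy h)
    have nbc : y b ≠ y c := fun h => (ne_of_lt hbc) (hy h)
    have nac : y a ≠ y c := fun h => (ne_of_lt (hab.trans hbc)) (hy h)
    exact (tc_code G _ _ _ nab nac nbc).1 (hT a b c hab hbc)

theorem code_double {V : Type} (G : MixedGraph V) (p q : V × Fin 2) :
    code G.double p q = code G p.1 q.1 := by
  classical
  unfold code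
  by_cases h : p.1 = q.1
  · rw [if_pos h]
    by_cases h2 : p = q
    · rw [if_pos h2]
    · rw [if_neg h2, if_pos (show G.double.neutral p q from Or.inl h)]
  · have h2 : p ≠ q := fun h2 => h (by rw [h2])
    rw [if_neg h, if_neg h2]
    have e1 : G.double.neutral p q ↔ G.neutral p.1 q.1 :=
      ⟨fun h3 => h3.resolve_left h, fun h3 => Or.inr h3⟩
    have e2 : G.double.arrow p q ↔ G.arrow p.1 q.1 := Iff.rfl
    have e3 : G.double.arrow q p ↔ G.arrow q.1 p.1 := Iff.rfl
    simp only [e1, e2, e3]

theorem exact2 {n : ℕ} (G : MixedGraph (Fin n)) (h : K53Free G.double.threeGraph) :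
    8 * G.threeGraph.card ≤ n ^ 3 := by
  rcases Nat.eq_zero_or_pos n with hn | hn
  · subst hn
    have h1 := tri_count G
    simp only [Finset.univ_eq_empty, Finset.sum_empty, add_zero] at h1
    omega
  · have hcl : Cl (code G) := by
      refine Cl_of _ fun y hy => ?_
      obtain ⟨e, he⟩ := bits (code G) (code_self G) y hy
      refine free5 G.double h (fun a => (y a, e a)) he ?_
      intro a b c hab hbc
      have := hy a b c hab hbc
      unfold c3 at this ⊢
      rw [code_double, code_double, code_double]
      exact this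
    have hn0 : (0 : ℝ) < n := by exact_mod_cast hn
    have h1 := closed_bound (code_pr G) (code_self G) hcl (fun _ => 1 / (n : ℝ))
      (fun _ => by positivity) (by
        rw [Finset.sum_const, Finset.card_univ, Fintype.card_fin, nsmul_eq_mul]
        field_simp)
    have h2 : ∑ a : Fin n, ∑ b : Fin n, ∑ c : Fin n, 1 / (n : ℝ) * (1 / (n : ℝ)) * (1 / (n : ℝ)) *
        (tc (c3 (code G) a b c) : ℝ) =
        1 / (n : ℝ) ^ 3 * ((∑ a, ∑ b, ∑ d, tc (c3 (code G) a b d) : ℕ) : ℝ) := by
      push_cast
      simp only [Finset.mul_sum]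
      refine Finset.sum_congr rfl fun a _ => Finset.sum_congr rfl fun b _ =>
        Finset.sum_congr rfl fun c _ => ?_
      field_simp
    rw [h2] at h1
    have h3 : (n : ℝ) ^ 3 / 4 ≤ ((∑ a, ∑ b, ∑ d, tc (c3 (code G) a b d) : ℕ) : ℝ) := by
      have h4 : 0 < (n : ℝ) ^ 3 := by positivity
      rw [div_mul_eq_mul_div, one_mul, le_div_iff₀ h4] at h1
      linarith
    have h5 := tri_count G
    have h6 : 6 * (G.threeGraph.card : ℝ) + ((∑ a, ∑ b, ∑ d, tc (c3 (code G) a b d) : ℕ) : ℝ) ≤
        (n : ℝ) ^ 3 := by exact_mod_cast h5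
    have h7 : 8 * (G.threeGraph.card : ℝ) ≤ (n : ℝ) ^ 3 := by linarith
    exact_mod_cast h7

end Pool.Agent.H63.MG
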