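import Pool.Agent.H63.MG.Tab

set_option autoImplicit false
set_option maxRecDepth 100000

namespace Pool.Agent.H63.MG

theorem ck10 : chk 1 2 0 0 = true := by decide +kernel
theorem ck11 : chk 1 2 1 2 = true := by decide +kernel
theorem ck12 : chk 1 2 2 1 = true := by decide +kernel
theorem ck13 : chk 1 2 3 3 = true := by decide +kernel

end Pool.Agent.H63.MG
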