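import Pool.Agent.H63.MG.TabP

set_option autoImplicit false
set_option maxRecDepth 100000

namespace Pool.Agent.H63.MG

theorem cd0 : chkd 0 = true := by decide +kernel
theorem cs0 : chks 0 = true := by decide +kernel
theorem cd1 : chkd 1 = true := by decide +kernel
theorem cs1 : chks 1 = true := by decide +kernel
theorem cd2 : chkd 2 = true := by decide +kernel
theorem cs2 : chks 2 = true := by decide +kernel
theorem cd3 : chkd 3 = true := by decide +kernel
theorem cs3 : chks 3 = true := by decide +kernel
theorem cd4 : chkd 4 = true := by decide +kernel
theorem cs4 : chks 4 = true := by decide +kernel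
theorem cd5 : chkd 5 = true := by decide +kernel
theorem cs5 : chks 5 = true := by decide +kernel
theorem cd6 : chkd 6 = true := by decide +kernel
theorem cs6 : chks 6 = true := by decide +kernel

end Pool.Agent.H63.MG
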