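import Pool.Agent.H63.MG.TabP

set_option autoImplicit false
set_option maxRecDepth 100000

namespace Pool.Agent.H63.MG

theorem cd7 : chkd 7 = true := by decide +kernel
theorem cs7 : chks 7 = true := by decide +kernel
theorem cd8 : chkd 8 = true := by decide +kernel
theorem cs8 : chks 8 = true := by decide +kernel
theorem cd9 : chkd 9 = true := by decide +kernel
theorem cs9 : chks 9 = true := by decide +kernel
theorem cd10 : chkd 10 = true := by decide +kernel
theorem cs10 : chks 10 = true := by decide +kernel
theorem cd11 : chkd 11 = true := by decide +kernel
theorem cs11 : chks 11 = true := by decide +kernel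
theorem cd12 : chkd 12 = true := by decide +kernel
theorem cs12 : chks 12 = true := by decide +kernel
theorem cd13 : chkd 13 = true := by decide +kernel
theorem cs13 : chks 13 = true := by decide +kernel

end Pool.Agent.H63.MG
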