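import Pool.Agent.H63.MG.TabP

set_option autoImplicit false
set_option maxRecDepth 100000

namespace Pool.Agent.H63.MG

theorem cq0 : chkq 0 = true := by decide +kernel
theorem cq1 : chkq 1 = true := by decide +kernel
theorem cq2 : chkq 2 = true := by decide +kernel
theorem cq3 : chkq 3 = true := by decide +kernel
theorem cq4 : chkq 4 = true := by decide +kernel
theorem cq5 : chkq 5 = true := by decide +kernel
theorem cq6 : chkq 6 = true := by decide +kernel
theorem cq7 : chkq 7 = true := by decide +kernel
theorem cq8 : chkq 8 = true := by decide +kernel
theorem cq9 : chkq 9 = true := by decide +kernel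
theorem cq10 : chkq 10 = true := by decide +kernel
theorem cq11 : chkq 11 = true := by decide +kernel
theorem cq12 : chkq 12 = true := by decide +kernel
theorem cq13 : chkq 13 = true := by decide +kernel
theorem cq14 : chkq 14 = true := by decide +kernel
theorem cq15 : chkq 15 = true := by decide +kernel
theorem cq16 : chkq 16 = true := by decide +kernel
theorem cq17 : chkq 17 = true := by decide +kernel
theorem cq18 : chkq 18 = true := by decide +kernel
theorem cq19 : chkq 19 = true := by decide +kernel
theorem cq20 : chkq 20 = true := by decide +kernel
theorem cq21 : chkq 21 = true := by decide +kernel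
theorem cq22 : chkq 22 = true := by decide +kernel
theorem cq23 : chkq 23 = true := by decide +kernel
theorem cq24 : chkq 24 = true := by decide +kernel
theorem cq25 : chkq 25 = true := by decide +kernel
theorem cq26 : chkq 26 = true := by decide +kernel
theorem cq27 : chkq 27 = true := by decide +kernel
theorem cq28 : chkq 28 = true := by decide +kernel
theorem cq29 : chkq 29 = true := by decide +kernel
theorem cq30 : chkq 30 = true := by decide +kernel
theorem cq31 : chkq 31 = true := by decide +kernel
theorem cq32 : chkq 32 = true := by decide +kernel
theorem cq33 : chkq 33 = true := by decide +kernel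
theorem cq34 : chkq 34 = true := by decide +kernel
theorem cq35 : chkq 35 = true := by decide +kernel
theorem cq36 : chkq 36 = true := by decide +kernel
theorem cq37 : chkq 37 = true := by decide +kernel
theorem cq38 : chkq 38 = true := by decide +kernel
theorem cq39 : chkq 39 = true := by decide +kernel
theorem cq40 : chkq 40 = true := by decide +kernel
theorem cq41 : chkq 41 = true := by decide +kernel
theorem cq42 : chkq 42 = true := by decide +kernel
theorem cq43 : chkq 43 = true := by decide +kernel
theorem cq44 : chkq 44 = true := by decide +kernel
theorem cq45 : chkq 45 = true := by decide +kernel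
theorem cq46 : chkq 46 = true := by decide +kernel
theorem cq47 : chkq 47 = true := by decide +kernel
theorem cq48 : chkq 48 = true := by decide +kernel
theorem cq49 : chkq 49 = true := by decide +kernel
theorem cq50 : chkq 50 = true := by decide +kernel
theorem cq51 : chkq 51 = true := by decide +kernel
theorem cq52 : chkq 52 = true := by decide +kernel
theorem cq53 : chkq 53 = true := by decide +kernel
theorem cq54 : chkq 54 = true := by decide +kernel
theorem cq55 : chkq 55 = true := by decide +kernel
theorem cq56 : chkq 56 = true := by decide +kernel
theorem cq57 : chkq 57 = true := by decide +kernel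
theorem cq58 : chkq 58 = true := by decide +kernel
theorem cq59 : chkq 59 = true := by decide +kernel
theorem cq60 : chkq 60 = true := by decide +kernel
theorem cq61 : chkq 61 = true := by decide +kernel
theorem cq62 : chkq 62 = true := by decide +kernel
theorem cq63 : chkq 63 = true := by decide +kernel
theorem cti : chkti = true := by decide +kernel

/-- the table for the flags with one root in terms of the reduced matrix -/
def cu (i j : ℕ) : Bool :=
  Nat.beq (Nat.add (q1 i j) (Nat.add
      (nsum 23 fun a => Nat.mul 8 (nsum 23 fun b => Nat.mul (gt 13 a b) (ut j b)))
      (Nat.add (nsum 23 fun a => Nat.mul (ut i a) (nsum 23 fun b => Nat.mul (gt 13 a b) 8))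
      (nsum 23 fun a => Nat.mul 32768 (nsum 23 fun b => Nat.add (Nat.mul (ut i a) (ut j b)) 64)))))
    (Nat.add 32768 (Nat.add (nsum 23 fun a => Nat.mul (ut i a) (nsum 23 fun b => Nat.mul (gt 13 a b) (ut j b)))
      (Nat.add (nsum 23 fun a => nsum 23 fun b => Nat.mul (gt 13 a b) 64)
      (nsum 23 fun a => nsum 23 fun b => Nat.mul 32768 (Nat.mul 8 (Nat.add (ut i a) (ut j b)))))))
def chku : Bool := nall 64 fun i => nall 64 fun j => cu i j
theorem cuu : chku = true := by decide +kernel

end Pool.Agent.H63.MG
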