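import Pool.Agent.H63.MG.Flag
import Pool.Agent.H63.MG.ChkB
import Pool.Agent.H63.MG.ChkA0
import Pool.Agent.H63.MG.ChkA1
import Pool.Agent.H63.MG.ChkA2
import Pool.Agent.H63.MG.ChkA3

/-! The inequality for relations closed under neutral blow-ups. -/

set_option autoImplicit false
set_option maxRecDepth 100000
open Finset

namespace Pool.Agent.H63.MG

theorem Pr_lt {d e : ℕ} (h : Pr d e) : d < 4 := by
  rcases h with ⟨rfl, rfl⟩ | ⟨rfl, rfl⟩ | ⟨rfl, rfl⟩ | ⟨rfl, rfl⟩ <;> norm_num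

theorem cd_lt {x y z : ℕ} (hx : x < 4) (hy : y < 4) (hz : z < 4) : cd x y z < 64 := by
  show x + (4 * y + 16 * z) < 64
  omega

section
attribute [local irreducible] b4 tf leaf

theorem nb {n : ℕ} {x : Bool} (hn : n = 0) (hx : or (Nat.beq n 1) x = true) : x = true := by
  subst hn
  exact hx

theorem leaf_le (d01 e01 d02 e02 d03 e03 d04 e04 d12 e12 d13 e13 d14 e14 d23 e23 d24 e24 d34 e34 : ℕ) (h01 : Pr d01 e01) (h02 : Pr d02 e02) (h03 : Pr d03 e03) (h04 : Pr d04 e04) (h12 : Pr d12 e12) (h13 : Pr d13 e13) (h14 : Pr d14 e14) (h23 : Pr d23 e23) (h24 : Pr d24 e24) (h34 : Pr d34 e34)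
    (z0 : b4 d01 d02 d03 d12 d13 d23 = 0) (z1 : b4 d01 d02 d04 d12 d14 d24 = 0)
    (z2 : b4 d01 d03 d04 d13 d14 d34 = 0) (z3 : b4 d02 d03 d04 d23 d24 d34 = 0)
    (z4 : b4 d12 d13 d14 d23 d24 d34 = 0)
    (hf : tf d01 d02 d03 d04 d12 d13 d14 d23 d24 d34 = false) :
    leaf d01 e01 d02 e02 d03 e03 d04 e04 d12 e12 d13 e13 d14 e14 d23 e23 d24 e24 d34 e34 ≤ 815360 := by
  have hc : chk d01 e01 d02 e02 = true := by
    rcases h01 with ⟨rfl, rfl⟩ | ⟨rfl, rfl⟩ | ⟨rfl, rfl⟩ | ⟨rfl, rfl⟩ <;>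
    rcases h02 with ⟨rfl, rfl⟩ | ⟨rfl, rfl⟩ | ⟨rfl, rfl⟩ | ⟨rfl, rfl⟩
    exacts [ck00, ck01, ck02, ck03, ck10, ck11, ck12, ck13, ck20, ck21, ck22, ck23, ck30, ck31,
      ck32, ck33]
  unfold chk at hc
  have h1 : chkin d01 e01 d02 e02 d12 e12 d03 e03 d13 e13 d23 e23 = true :=
    A4_true (A4_true (A4_true (A4_true hc h12) h03) h13) h23
  unfold chkin at h1
  have h2 := A4_true (A4_true (A4_true (nb z0 h1) h04) h14) h24
  have h3 := A4_true (nb z1 h2) h34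
  have h4 := nb z4 (nb z3 (nb z2 h3))
  rw [hf] at h4
  exact Nat.le_of_ble_eq_true h4

end

section
variable {V : Type} (rel : V → V → ℕ)

/-- code of a triple -/
def c3 (a b c : V) : ℕ := cd (rel a b) (rel a c) (rel b c)
/-- code of the attachment of `d` to the triple `a b c` -/
def c4 (a b c d : V) : ℕ := cd (rel a d) (rel b d) (rel c d)

def F3 (a b c d e : V) : ℕ := q3 (c3 rel a b c) (c4 rel a b c d) (c4 rel a b c e)
def F1 (a b c d e : V) : ℕ := q1 (c3 rel a b c) (c3 rel a d e)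

/-- the relation is closed under neutral blow-ups and has no five vertices without a dominated
triple -/
def Cl : Prop := ∀ a b c d e : V, tf (rel a b) (rel a c) (rel a d) (rel a e) (rel b c) (rel b d)
  (rel b e) (rel c d) (rel c e) (rel d e) = false

variable {rel}

theorem b4_zero (hrel : ∀ x y, Pr (rel x y) (rel y x)) (hz : ∀ x, rel x x = 0) (hcl : Cl rel)
    (a b c d : V) :
    b4 (rel a b) (rel a c) (rel a d) (rel b c) (rel b d) (rel c d) = 0 := by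
  have hl : ∀ x y, rel x y < 4 := fun x y => Pr_lt (hrel x y)
  have h := nall_true (nall_true (nall_true (nall_true (nall_true (nall_true cbb _ (hl a b)) _
    (hl a c)) _ (hl a d)) _ (hl b c)) _ (hl b d)) _ (hl c d)
  rw [Bool.or_eq_true] at h
  rcases h with h | h
  · exact Nat.eq_of_beq_eq_true h
  exfalso
  unfold anytf at h
  simp only [Bool.or_eq_true] at h
  rcases h with h | h | h | h | h | h | h | h | h | h | h | h | h | h | h | h
  · have h2 := hcl a a b b c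
    simp only [hz] at h2
    exact Bool.false_ne_true (h2.symm.trans h)
  · have h2 := hcl a a b b d
    simp only [hz] at h2
    exact Bool.false_ne_true (h2.symm.trans h)
  · have h2 := hcl a a b c c
    simp only [hz] at h2
    exact Bool.false_ne_true (h2.symm.trans h)
  · have h2 := hcl a a b c d
    simp only [hz] at h2
    exact Bool.false_ne_true (h2.symm.trans h)
  · have h2 := hcl a a b d d
    simp only [hz] at h2
    exact Bool.false_ne_true (h2.symm.trans h)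
  · have h2 := hcl a a c c d
    simp only [hz] at h2
    exact Bool.false_ne_true (h2.symm.trans h)
  · have h2 := hcl a a c d d
    simp only [hz] at h2
    exact Bool.false_ne_true (h2.symm.trans h)
  · have h2 := hcl a b b c c
    simp only [hz] at h2
    exact Bool.false_ne_true (h2.symm.trans h)
  · have h2 := hcl a b b c d
    simp only [hz] at h2
    exact Bool.false_ne_true (h2.symm.trans h)
  · have h2 := hcl a b b d d
    simp only [hz] at h2
    exact Bool.false_ne_true (h2.symm.trans h)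
  · have h2 := hcl a b c c d
    simp only [hz] at h2
    exact Bool.false_ne_true (h2.symm.trans h)
  · have h2 := hcl a b c d d
    simp only [hz] at h2
    exact Bool.false_ne_true (h2.symm.trans h)
  · have h2 := hcl a c c d d
    simp only [hz] at h2
    exact Bool.false_ne_true (h2.symm.trans h)
  · have h2 := hcl b b c c d
    simp only [hz] at h2
    exact Bool.false_ne_true (h2.symm.trans h)
  · have h2 := hcl b b c d d
    simp only [hz] at h2
    exact Bool.false_ne_true (h2.symm.trans h)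
  · have h2 := hcl b c c d d
    simp only [hz] at h2
    exact Bool.false_ne_true (h2.symm.trans h)

/-- the total over the 10 triples and the 15 splittings of five vertices -/
def Leaf (rel : V → V → ℕ) (x : Fin 5 → V) : ℕ :=
  (F3 rel (x 0) (x 1) (x 2) (x 3) (x 4) +
      (F3 rel (x 0) (x 1) (x 3) (x 2) (x 4) +
      (F3 rel (x 0) (x 1) (x 4) (x 2) (x 3) +
      (F3 rel (x 0) (x 2) (x 3) (x 1) (x 4) +
      (F3 rel (x 0) (x 2) (x 4) (x 1) (x 3) +
      (F3 rel (x 0) (x 3) (x 4) (x 1) (x 2) +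
      (F3 rel (x 1) (x 2) (x 3) (x 0) (x 4) +
      (F3 rel (x 1) (x 2) (x 4) (x 0) (x 3) +
      (F3 rel (x 1) (x 3) (x 4) (x 0) (x 2) +
      F3 rel (x 2) (x 3) (x 4) (x 0) (x 1))))))))))
    + (F1 rel (x 0) (x 1) (x 2) (x 3) (x 4) +
      (F1 rel (x 0) (x 1) (x 3) (x 2) (x 4) +
      (F1 rel (x 0) (x 1) (x 4) (x 2) (x 3) +
      (F1 rel (x 1) (x 0) (x 2) (x 3) (x 4) +
      (F1 rel (x 1) (x 0) (x 3) (x 2) (x 4) +
      (F1 rel (x 1) (x 0) (x 4) (x 2) (x 3) +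
      (F1 rel (x 2) (x 0) (x 1) (x 3) (x 4) +
      (F1 rel (x 2) (x 0) (x 3) (x 1) (x 4) +
      (F1 rel (x 2) (x 0) (x 4) (x 1) (x 3) +
      (F1 rel (x 3) (x 0) (x 1) (x 2) (x 4) +
      (F1 rel (x 3) (x 0) (x 2) (x 1) (x 4) +
      (F1 rel (x 3) (x 0) (x 4) (x 1) (x 2) +
      (F1 rel (x 4) (x 0) (x 1) (x 2) (x 3) +
      (F1 rel (x 4) (x 0) (x 2) (x 1) (x 3) +
      F1 rel (x 4) (x 0) (x 3) (x 1) (x 2)))))))))))))))

theorem Leaf_le (hrel : ∀ x y, Pr (rel x y) (rel y x)) (hz : ∀ x, rel x x = 0) (hcl : Cl rel)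
    (x : Fin 5 → V) : Leaf rel x ≤ 815360 :=
  leaf_le (rel (x 0) (x 1)) (rel (x 1) (x 0)) (rel (x 0) (x 2)) (rel (x 2) (x 0)) (rel (x 0) (x 3)) (rel (x 3) (x 0)) (rel (x 0) (x 4)) (rel (x 4) (x 0)) (rel (x 1) (x 2)) (rel (x 2) (x 1)) (rel (x 1) (x 3)) (rel (x 3) (x 1)) (rel (x 1) (x 4)) (rel (x 4) (x 1)) (rel (x 2) (x 3)) (rel (x 3) (x 2)) (rel (x 2) (x 4)) (rel (x 4) (x 2)) (rel (x 3) (x 4)) (rel (x 4) (x 3))
    (hrel _ _) (hrel _ _) (hrel _ _) (hrel _ _) (hrel _ _) (hrel _ _) (hrel _ _) (hrel _ _) (hrel _ _) (hrel _ _)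
    (b4_zero hrel hz hcl (x 0) (x 1) (x 2) (x 3)) (b4_zero hrel hz hcl (x 0) (x 1) (x 2) (x 4))
    (b4_zero hrel hz hcl (x 0) (x 1) (x 3) (x 4)) (b4_zero hrel hz hcl (x 0) (x 2) (x 3) (x 4))
    (b4_zero hrel hz hcl (x 1) (x 2) (x 3) (x 4)) (hcl (x 0) (x 1) (x 2) (x 3) (x 4))

end

theorem psumw {V : Type} [Fintype V] (w : V → ℝ) (F : V → V → V → V → V → ℝ) (g : Fin 5 → Fin 5)
    (hg : Function.Bijective g) :
    ∑ x : Fin 5 → V, (∏ i, w (x i)) * F (x (g 0)) (x (g 1)) (x (g 2)) (x (g 3)) (x (g 4))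
      = ∑ x : Fin 5 → V, (∏ i, w (x i)) * F (x 0) (x 1) (x 2) (x 3) (x 4) := by
  have h := Equiv.sum_comp (Equiv.arrowCongr (Equiv.ofBijective g hg).symm (Equiv.refl V))
    (fun x => (∏ i, w (x i)) * F (x 0) (x 1) (x 2) (x 3) (x 4))
  rw [← h]
  refine sum_congr rfl fun x _ => ?_
  have e : (∏ i, w (x i)) = ∏ i, w ((Equiv.arrowCongr (Equiv.ofBijective g hg).symm
      (Equiv.refl V)) x i) := by
    have := Equiv.prod_comp (Equiv.ofBijective g hg) (fun i => w (x i))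
    rw [← this]
    rfl
  rw [e]
  rfl

def e5 (V : Type) : (Fin 5 → V) ≃ V × V × V × V × V where
  toFun x := (x 0, x 1, x 2, x 3, x 4)
  invFun p := ![p.1, p.2.1, p.2.2.1, p.2.2.2.1, p.2.2.2.2]
  left_inv x := by funext i; fin_cases i <;> rfl
  right_inv p := rfl

theorem convw {V : Type} [Fintype V] (w : V → ℝ) (F : V → V → V → V → V → ℝ) :
    ∑ x : Fin 5 → V, (∏ i, w (x i)) * F (x 0) (x 1) (x 2) (x 3) (x 4)
      = ∑ a, ∑ b, ∑ c, ∑ d, ∑ e, w a * w b * w c * w d * w e * F a b c d e := by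
  rw [← Equiv.sum_comp (e5 V).symm]
  simp only [Fintype.sum_prod_type]
  refine sum_congr rfl fun a _ => sum_congr rfl fun b _ => sum_congr rfl fun c _ =>
    sum_congr rfl fun d _ => sum_congr rfl fun e _ => ?_
  have : (∏ i, w ((e5 V).symm (a, b, c, d, e) i)) = w a * w b * w c * w d * w e := by
    rw [Fin.prod_univ_five]
    rfl
  rw [this]
  rfl

theorem sum1 {V : Type} [Fintype V] (w : V → ℝ) (h1 : ∑ v, w v = 1) (z : ℝ) :
    ∑ v, w v * z = z := by
  rw [← sum_mul, h1, one_mul]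

variable {V : Type} [Fintype V] {rel : V → V → ℕ}

theorem lower3 (hrel : ∀ x y, Pr (rel x y) (rel y x)) (w : V → ℝ) (hw : ∀ v, 0 ≤ w v)
    (h1 : ∑ v, w v = 1) :
    32768 - 1536 * (∑ a, ∑ b, ∑ c, w a * w b * w c * (tc (c3 rel a b c) : ℝ))
      ≤ ∑ x : Fin 5 → V, (∏ i, w (x i)) * (F3 rel (x 0) (x 1) (x 2) (x 3) (x 4) : ℝ) := by
  have hl : ∀ x y, rel x y < 4 := fun x y => Pr_lt (hrel x y)
  rw [convw w (fun a b c d e => (F3 rel a b c d e : ℝ))]
  have e1 : 32768 - 1536 * (∑ a, ∑ b, ∑ c, w a * w b * w c * (tc (c3 rel a b c) : ℝ))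
      = ∑ a, ∑ b, ∑ c, w a * (w b * (w c * (32768 - 1536 * (tc (c3 rel a b c) : ℝ)))) := by
    have hO : (32768 : ℝ) = ∑ a, ∑ b, ∑ c, w a * (w b * (w c * (32768 : ℝ))) := by
      simp only [← mul_sum, sum1 w h1]
    nth_rewrite 1 [hO]
    rw [mul_sum, ← sum_sub_distrib]
    refine sum_congr rfl fun a _ => ?_
    rw [mul_sum, ← sum_sub_distrib]
    refine sum_congr rfl fun b _ => ?_
    rw [mul_sum, ← sum_sub_distrib]
    exact sum_congr rfl fun c _ => by ring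
  rw [e1]
  refine sum_le_sum fun a _ => sum_le_sum fun b _ => sum_le_sum fun c _ => ?_
  have p := form3 (c := c3 rel a b c) (cd_lt (hl _ _) (hl _ _) (hl _ _)) w h1
    (fun d => c4 rel a b c d) (fun d => cd_lt (hl _ _) (hl _ _) (hl _ _))
  have e3 : ∑ d, ∑ e, w a * w b * w c * w d * w e * (F3 rel a b c d e : ℝ)
      = w a * (w b * (w c * ∑ d, ∑ e, w d * w e *
        (q3 (c3 rel a b c) (c4 rel a b c d) (c4 rel a b c e) : ℝ))) := by
    simp only [mul_sum]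
    exact sum_congr rfl fun d _ => sum_congr rfl fun e _ => by unfold F3; ring
  rw [e3]
  exact mul_le_mul_of_nonneg_left (mul_le_mul_of_nonneg_left
    (mul_le_mul_of_nonneg_left p (hw c)) (hw b)) (hw a)

theorem lower1 (hrel : ∀ x y, Pr (rel x y) (rel y x)) (w : V → ℝ) (hw : ∀ v, 0 ≤ w v)
    (h1 : ∑ v, w v = 1) :
    (32768 : ℝ) ≤ ∑ x : Fin 5 → V, (∏ i, w (x i)) * (F1 rel (x 0) (x 1) (x 2) (x 3) (x 4) : ℝ) := by
  have hl : ∀ x y, rel x y < 4 := fun x y => Pr_lt (hrel x y)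
  rw [convw w (fun a b c d e => (F1 rel a b c d e : ℝ))]
  have hO : (32768 : ℝ) = ∑ a, w a * (32768 : ℝ) := (sum1 w h1 _).symm
  rw [hO]
  refine sum_le_sum fun a _ => ?_
  have p := form1 (W := V × V) (fun q => w q.1 * w q.2)
    (by
      rw [Fintype.sum_prod_type]
      simp only [← mul_sum, h1, mul_one])
    (fun q => c3 rel a q.1 q.2) (fun q => cd_lt (hl _ _) (hl _ _) (hl _ _))
  simp only [Fintype.sum_prod_type] at p
  have e3 : ∑ b, ∑ c, ∑ d, ∑ e, w a * w b * w c * w d * w e * (F1 rel a b c d e : ℝ)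
      = w a * ∑ b, ∑ c, ∑ d, ∑ e, w b * w c * (w d * w e) *
        (q1 (c3 rel a b c) (c3 rel a d e) : ℝ) := by
    simp only [mul_sum]
    exact sum_congr rfl fun b _ => sum_congr rfl fun c _ => sum_congr rfl fun d _ =>
      sum_congr rfl fun e _ => by unfold F1; ring
  rw [e3]
  exact mul_le_mul_of_nonneg_left p (hw a)

/-- the weighted proportion of dominated triples is at least `1/4` -/
theorem closed_bound (hrel : ∀ x y, Pr (rel x y) (rel y x)) (hz : ∀ x, rel x x = 0) (hcl : Cl rel)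
    (w : V → ℝ) (hw : ∀ v, 0 ≤ w v) (h1 : ∑ v, w v = 1) :
    1 / 4 ≤ ∑ a, ∑ b, ∑ c, w a * w b * w c * (tc (c3 rel a b c) : ℝ) := by
  have L3 := lower3 hrel w hw h1
  have L1 := lower1 hrel w hw h1
  have f3 : ∀ i0 i1 i2 i3 i4 : Fin 5, Function.Bijective ![i0, i1, i2, i3, i4] →
      ∑ x : Fin 5 → V, (∏ i, w (x i)) * (F3 rel (x i0) (x i1) (x i2) (x i3) (x i4) : ℝ)
      = ∑ x : Fin 5 → V, (∏ i, w (x i)) * (F3 rel (x 0) (x 1) (x 2) (x 3) (x 4) : ℝ) :=
    fun i0 i1 i2 i3 i4 hg =>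
      psumw w (fun a b c d e => (F3 rel a b c d e : ℝ)) ![i0, i1, i2, i3, i4] hg
  have f1 : ∀ i0 i1 i2 i3 i4 : Fin 5, Function.Bijective ![i0, i1, i2, i3, i4] →
      ∑ x : Fin 5 → V, (∏ i, w (x i)) * (F1 rel (x i0) (x i1) (x i2) (x i3) (x i4) : ℝ)
      = ∑ x : Fin 5 → V, (∏ i, w (x i)) * (F1 rel (x 0) (x 1) (x 2) (x 3) (x 4) : ℝ) :=
    fun i0 i1 i2 i3 i4 hg =>
      psumw w (fun a b c d e => (F1 rel a b c d e : ℝ)) ![i0, i1, i2, i3, i4] hg
  have hW : ∑ x : Fin 5 → V, (∏ i, w (x i)) * (815360 : ℝ) = 815360 := by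
    rw [convw w (fun _ _ _ _ _ => (815360 : ℝ))]
    simp only [mul_assoc, ← mul_sum, sum1 w h1]
  have key : ∑ x : Fin 5 → V, (∏ i, w (x i)) * (Leaf rel x : ℝ) ≤ 815360 := by
    rw [← hW]
    refine sum_le_sum fun x _ => mul_le_mul_of_nonneg_left ?_ (prod_nonneg fun i _ => hw _)
    exact_mod_cast Leaf_le hrel hz hcl x
  have e : ∑ x : Fin 5 → V, (∏ i, w (x i)) * (Leaf rel x : ℝ)
      = 10 * (∑ x : Fin 5 → V, (∏ i, w (x i)) * (F3 rel (x 0) (x 1) (x 2) (x 3) (x 4) : ℝ))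
      + 15 * (∑ x : Fin 5 → V, (∏ i, w (x i)) * (F1 rel (x 0) (x 1) (x 2) (x 3) (x 4) : ℝ)) := by
    simp only [Leaf, Nat.cast_add, mul_add, sum_add_distrib]
    rw [f3 0 1 3 2 4 (by decide), f3 0 1 4 2 3 (by decide), f3 0 2 3 1 4 (by decide),
      f3 0 2 4 1 3 (by decide), f3 0 3 4 1 2 (by decide), f3 1 2 3 0 4 (by decide),
      f3 1 2 4 0 3 (by decide), f3 1 3 4 0 2 (by decide), f3 2 3 4 0 1 (by decide),
      f1 0 1 3 2 4 (by decide), f1 0 1 4 2 3 (by decide),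
      f1 1 0 2 3 4 (by decide), f1 1 0 3 2 4 (by decide), f1 1 0 4 2 3 (by decide),
      f1 2 0 1 3 4 (by decide), f1 2 0 3 1 4 (by decide), f1 2 0 4 1 3 (by decide),
      f1 3 0 1 2 4 (by decide), f1 3 0 2 1 4 (by decide), f1 3 0 4 1 2 (by decide),
      f1 4 0 1 2 3 (by decide), f1 4 0 2 1 3 (by decide), f1 4 0 3 1 2 (by decide)]
    ring
  rw [e] at key
  linarith

end Pool.Agent.H63.MG
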