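import Pool.Agent.H63.MGS.Defs

/-! Module CONSTR: the 3-graph of the four classes has no complete 3-graph on five vertices, no
transitive sequence of three arrows, and at most 2 * C(m,3) dominated triples. -/

set_option autoImplicit false

namespace Pool.Agent.H63.MG

open Finset
open Pool.Agent.H63.MGS

/-- Three classes whose vertices form a dominated triple. -/
def CT (x y z : Fin 4) : Prop :=
  (x = y ∧ x = z) ∨ (y = x + 1 ∧ z = x + 1) ∨ (x = y + 1 ∧ z = y + 1) ∨
    (x = z + 1 ∧ y = z + 1)

instance (x y z : Fin 4) : Decidable (CT x y z) := by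
  unfold CT
  infer_instance

theorem CT_five (a b c d e : Fin 4) : CT a b c ∨ CT a b d ∨ CT a b e ∨ CT a c d ∨ CT a c e ∨
    CT a d e ∨ CT b c d ∨ CT b c e ∨ CT b d e ∨ CT c d e := by
  revert a b c d e
  decide +kernel

theorem dom_of_CT {V : Type} [DecidableEq V] (c : V → Fin 4) (G : MixedGraph V)
    (hN : ∀ x y, c x = c y → G.neutral x y) (hA : ∀ x y, c y = c x + 1 → G.arrow x y)
    {x y z : V} (h : CT (c x) (c y) (c z)) : G.Dominated {x, y, z} := by
  rcases h with ⟨h1, h2⟩ | ⟨h1, h2⟩ | ⟨h1, h2⟩ | ⟨h1, h2⟩
  · refine ⟨x, by simp, Or.inl ?_⟩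
    intro w hw hne
    simp only [mem_insert, mem_singleton] at hw
    rcases hw with rfl | rfl | rfl
    · exact absurd rfl hne
    · exact hN _ _ h1
    · exact hN _ _ h2
  · refine ⟨x, by simp, Or.inr ?_⟩
    intro w hw hne
    simp only [mem_insert, mem_singleton] at hw
    rcases hw with rfl | rfl | rfl
    · exact absurd rfl hne
    · exact hA _ _ h1
    · exact hA _ _ h2
  · refine ⟨y, by simp, Or.inr ?_⟩
    intro w hw hne
    simp only [mem_insert, mem_singleton] at hw
    rcases hw with rfl | rfl | rfl
    · exact hA _ _ h1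
    · exact absurd rfl hne
    · exact hA _ _ h2
  · refine ⟨z, by simp, Or.inr ?_⟩
    intro w hw hne
    simp only [mem_insert, mem_singleton] at hw
    rcases hw with rfl | rfl | rfl
    · exact hA _ _ h1
    · exact hA _ _ h2
    · exact absurd rfl hne

theorem free_of_classes {V : Type} [Fintype V] (c : V → Fin 4) (G : MixedGraph V)
    (hN : ∀ x y, c x = c y → G.neutral x y) (hA : ∀ x y, c y = c x + 1 → G.arrow x y) :
    K53Free G.threeGraph := by
  classical
  intro S hS hsub
  let f := (S.equivFinOfCardEq hS).symm
  have key : ∀ i j k : Fin 5, i ≠ j → i ≠ k → j ≠ k →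
      ¬ CT (c (f i)) (c (f j)) (c (f k)) := by
    intro i j k hij hik hjk hT
    have hd := dom_of_CT c G hN hA hT
    have h1 : (f i : V) ≠ f j := fun h => hij (f.injective (Subtype.ext h))
    have h2 : (f i : V) ≠ f k := fun h => hik (f.injective (Subtype.ext h))
    have h3 : (f j : V) ≠ f k := fun h => hjk (f.injective (Subtype.ext h))
    have hmem : ({(f i : V), (f j : V), (f k : V)} : Finset V) ∈ S.powersetCard 3 := by
      rw [mem_powersetCard]
      constructor
      · intro w hw
        simp only [mem_insert, mem_singleton] at hw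
        rcases hw with rfl | rfl | rfl
        · exact (f i).2
        · exact (f j).2
        · exact (f k).2
      · exact card_eq_three.2 ⟨_, _, _, h1, h2, h3, rfl⟩
    have hin := hsub hmem
    unfold MixedGraph.threeGraph at hin
    rw [mem_filter] at hin
    exact hin.2 hd
  rcases CT_five (c (f 0)) (c (f 1)) (c (f 2)) (c (f 3)) (c (f 4)) with
    h | h | h | h | h | h | h | h | h | h
  · exact key 0 1 2 (by decide) (by decide) (by decide) h
  · exact key 0 1 3 (by decide) (by decide) (by decide) h
  · exact key 0 1 4 (by decide) (by decide) (by decide) h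
  · exact key 0 2 3 (by decide) (by decide) (by decide) h
  · exact key 0 2 4 (by decide) (by decide) (by decide) h
  · exact key 0 3 4 (by decide) (by decide) (by decide) h
  · exact key 1 2 3 (by decide) (by decide) (by decide) h
  · exact key 1 2 4 (by decide) (by decide) (by decide) h
  · exact key 1 3 4 (by decide) (by decide) (by decide) h
  · exact key 2 3 4 (by decide) (by decide) (by decide) h

theorem constr_free {V : Type} [Fintype V] (c : V → Fin 4) :
    K53Free (MixedGraph.ofClasses c).threeGraph :=
  free_of_classes c _ (fun _ _ h => h) (fun _ _ h => h)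

theorem constr_double {V : Type} [Fintype V] (c : V → Fin 4) :
    K53Free (MixedGraph.ofClasses c).double.threeGraph :=
  free_of_classes (fun p : V × Fin 2 => c p.1) (MixedGraph.ofClasses c).double
    (fun p q h => Or.inr (show c p.1 = c q.1 from h))
    (fun p q h => show c q.1 = c p.1 + 1 from h)

theorem constr_trans {V : Type} [Fintype V] (c : V → Fin 4) :
    (MixedGraph.ofClasses c).transitiveCount 3 = 0 := by
  classical
  unfold MixedGraph.transitiveCount
  rw [card_eq_zero, filter_eq_empty_iff]
  intro f _ hf
  have h1 : c (f 1) = c (f 0) + 1 := hf 0 1 (by decide)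
  have h2 : c (f 2) = c (f 0) + 1 := hf 0 2 (by decide)
  have h3 : c (f 2) = c (f 1) + 1 := hf 1 2 (by decide)
  rw [h1, h2] at h3
  generalize c (f 0) = a at h3
  revert a
  decide

theorem choose_add_three (a p : ℕ) : (a + p).choose 3 =
    a.choose 3 + p.choose 3 + a * p.choose 2 + p * a.choose 2 := by
  rw [Nat.add_choose_eq, Finset.Nat.antidiagonal_succ, Finset.sum_cons]
  simp [Finset.Nat.antidiagonal_succ]
  ring

theorem constr_card {n m : ℕ} (c : Fin n → Fin 4)
    (h02 : (univ.filter fun x => c x = 0).card = (univ.filter fun x => c x = 2).card)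
    (h13 : (univ.filter fun x => c x = 1).card = (univ.filter fun x => c x = 3).card)
    (hm : (univ.filter fun x => c x = 0).card + (univ.filter fun x => c x = 1).card = m) :
    n.choose 3 ≤ (MixedGraph.ofClasses c).threeGraph.card + 2 * m.choose 3 := by
  classical
  obtain ⟨C, hC⟩ : ∃ C : Fin 4 → Finset (Fin n), C = fun i => univ.filter fun x => c x = i :=
    ⟨_, rfl⟩
  have hC' : ∀ i x, x ∈ C i ↔ c x = i := by
    intro i x
    rw [hC]
    simp
  have h1 : (univ.powersetCard 3 : Finset (Finset (Fin n))).card = n.choose 3 := by simp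
  have h2 := card_filter_add_card_filter_not (s := (univ.powersetCard 3 : Finset (Finset (Fin n))))
    (fun e => ¬ (MixedGraph.ofClasses c).Dominated e)
  have h3 : ((univ.powersetCard 3 : Finset (Finset (Fin n))).filter
      (fun e => ¬ ¬ (MixedGraph.ofClasses c).Dominated e)) ⊆
      univ.biUnion (fun i : Fin 4 => (C i).powersetCard 3 ∪
        ((C i) ×ˢ ((C (i + 1)).powersetCard 2)).image (fun q => insert q.1 q.2)) := by
    intro e he
    rw [mem_filter, not_not, mem_powersetCard] at he
    obtain ⟨⟨-, hcard⟩, x, hx, hd⟩ := he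
    rw [mem_biUnion]
    refine ⟨c x, mem_univ _, ?_⟩
    rw [mem_union]
    rcases hd with hd | hd
    · left
      rw [mem_powersetCard]
      refine ⟨?_, hcard⟩
      intro y hy
      rw [hC']
      by_cases hyx : y = x
      · rw [hyx]
      · exact (hd y hy hyx).symm
    · right
      rw [mem_image]
      refine ⟨(x, e.erase x), ?_, insert_erase hx⟩
      rw [mem_product, mem_powersetCard]
      refine ⟨(hC' _ _).2 rfl, ?_, ?_⟩
      · intro y hy
        rw [mem_erase] at hy
        rw [hC']
        exact hd y hy.2 hy.1
      · rw [card_erase_of_mem hx, hcard]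
  have h4 := card_le_card h3
  have h5 : (univ.biUnion (fun i : Fin 4 => (C i).powersetCard 3 ∪
        ((C i) ×ˢ ((C (i + 1)).powersetCard 2)).image (fun q => insert q.1 q.2))).card ≤
      ∑ i : Fin 4, ((C i).card.choose 3 + (C i).card * (C (i + 1)).card.choose 2) := by
    refine card_biUnion_le.trans (sum_le_sum fun i _ => ?_)
    refine (card_union_le _ _).trans (add_le_add ?_ ?_)
    · rw [card_powersetCard]
    · refine card_image_le.trans ?_
      rw [card_product, card_powersetCard]
  rw [Fin.sum_univ_four] at h5
  have e0 : (0 : Fin 4) + 1 = 1 := rfl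
  have e1 : (1 : Fin 4) + 1 = 2 := rfl
  have e2 : (2 : Fin 4) + 1 = 3 := rfl
  have e3 : (3 : Fin 4) + 1 = 0 := rfl
  rw [e0, e1, e2, e3] at h5
  have k02 : (C 0).card = (C 2).card := by rw [hC]; exact h02
  have k13 : (C 1).card = (C 3).card := by rw [hC]; exact h13
  have km : (C 0).card + (C 1).card = m := by rw [hC]; exact hm
  rw [← k02, ← k13] at h5
  have h6 := choose_add_three (C 0).card (C 1).card
  rw [km] at h6
  have h7 : (MixedGraph.ofClasses c).threeGraph.card = ((univ.powersetCard 3 :
      Finset (Finset (Fin n))).filter (fun e => ¬ (MixedGraph.ofClasses c).Dominated e)).card := by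
    unfold MixedGraph.threeGraph
    congr!
  rw [h7, h6]
  omega

end Pool.Agent.H63.MG
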