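import Pool.Agent.H63.MG.Closed

/-! Five vertices, possibly repeated, without a dominated triple. -/

set_option autoImplicit false
open Finset

namespace Pool.Agent.H63.MG

/-- five vertices (possibly repeated) without a dominated triple -/
def TF {V : Type} (rel : V → V → ℕ) (y : Fin 5 → V) : Prop :=
  ∀ a b c : Fin 5, a < b → b < c → tc (c3 rel (y a) (y b) (y c)) = 0

theorem TF_of_tf {V : Type} (rel : V → V → ℕ) (a b c d e : V)
    (h : tf (rel a b) (rel a c) (rel a d) (rel a e) (rel b c) (rel b d) (rel b e) (rel c d)
      (rel c e) (rel d e) = true) : TF rel ![a, b, c, d, e] := by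
  unfold tf at h
  simp only [Bool.and_eq_true] at h
  obtain ⟨h012, h013, h014, h023, h024, h034, h123, h124, h134, h234⟩ := h
  intro i j k hij hjk
  fin_cases i <;> fin_cases j <;> first | exact absurd hij (by decide) | skip
  all_goals fin_cases k <;> first | exact absurd hjk (by decide) | skip
  · exact Nat.eq_of_beq_eq_true h012
  · exact Nat.eq_of_beq_eq_true h013
  · exact Nat.eq_of_beq_eq_true h014
  · exact Nat.eq_of_beq_eq_true h023
  · exact Nat.eq_of_beq_eq_true h024
  · exact Nat.eq_of_beq_eq_true h034
  · exact Nat.eq_of_beq_eq_true h123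
  · exact Nat.eq_of_beq_eq_true h124
  · exact Nat.eq_of_beq_eq_true h134
  · exact Nat.eq_of_beq_eq_true h234

theorem Cl_of {V : Type} (rel : V → V → ℕ) (h : ∀ y : Fin 5 → V, ¬ TF rel y) : Cl rel := by
  intro a b c d e
  cases hb : tf (rel a b) (rel a c) (rel a d) (rel a e) (rel b c) (rel b d) (rel b e) (rel c d)
      (rel c e) (rel d e)
  · rfl
  · exact absurd (TF_of_tf rel a b c d e hb) (h _)

/-- in such a family every vertex occurs at most twice -/
theorem bits {V : Type} (rel : V → V → ℕ) (hz : ∀ x, rel x x = 0) (y : Fin 5 → V)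
    (h : TF rel y) : ∃ e : Fin 5 → Fin 2, Function.Injective fun a => (y a, e a) := by
  classical
  have h3 : ∀ a b c : Fin 5, a < b → b < c → y a = y b → y b = y c → False := by
    intro a b c hab hbc h1 h2
    have := h a b c hab hbc
    rw [h1, h2] at this
    unfold c3 at this
    rw [hz] at this
    exact absurd this (by decide)
  let e : Fin 5 → Fin 2 := fun a => if ∃ b, b < a ∧ y b = y a then 1 else 0
  have key : ∀ a b, a < b → (y a, e a) = (y b, e b) → False := by
    intro a b hab heq
    have h1 : y a = y b := congrArg Prod.fst heq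
    have h2 : e a = e b := congrArg Prod.snd heq
    have h4 : e b = 1 := if_pos ⟨a, hab, h1⟩
    rw [h4] at h2
    by_cases hc : ∃ c, c < a ∧ y c = y a
    · obtain ⟨c, hca, hcy⟩ := hc
      exact h3 c a b hca hab hcy h1
    · have : e a = 0 := if_neg hc
      rw [this] at h2
      exact absurd h2 (by decide)
  refine ⟨e, fun a b heq => ?_⟩
  rcases lt_trichotomy a b with hab | hab | hab
  · exact (key a b hab heq).elim
  · exact hab
  · exact (key b a hab heq.symm).elim

end Pool.Agent.H63.MG
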