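import Pool.Agent.H63.MG.Psd
import Pool.Agent.H63.MG.ChkQ
import Pool.Agent.H63.MG.ChkD0
import Pool.Agent.H63.MG.ChkD1

/-! The two families of quadratic forms of the certificate. -/

set_option autoImplicit false
set_option maxRecDepth 100000
open Finset

namespace Pool.Agent.H63.MG

theorem sc_pos {t : ℕ} (h : t < 14) : 0 < sc t := by
  interval_cases t <;> decide

theorem G_psd {t : ℕ} (h : t < 14) (z : ℕ → ℝ) :
    0 ≤ ∑ a ∈ range 56, ∑ b ∈ range 56, z a * z b * ((gt t a b : ℝ) - 32768) := by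
  have hp := sc_pos h
  interval_cases t
  exacts [g_psd 0 cd0 cs0 hp z, g_psd 1 cd1 cs1 hp z, g_psd 2 cd2 cs2 hp z, g_psd 3 cd3 cs3 hp z,
    g_psd 4 cd4 cs4 hp z, g_psd 5 cd5 cs5 hp z, g_psd 6 cd6 cs6 hp z, g_psd 7 cd7 cs7 hp z,
    g_psd 8 cd8 cs8 hp z, g_psd 9 cd9 cs9 hp z, g_psd 10 cd10 cs10 hp z, g_psd 11 cd11 cs11 hp z,
    g_psd 12 cd12 cs12 hp z, g_psd 13 cd13 cs13 hp z]

theorem chkq_all {c : ℕ} (h : c < 64) : chkq c = true := by
  interval_cases c
  exacts [cq0, cq1, cq2, cq3, cq4, cq5, cq6, cq7, cq8, cq9, cq10, cq11, cq12, cq13, cq14, cq15,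
    cq16, cq17, cq18, cq19, cq20, cq21, cq22, cq23, cq24, cq25, cq26, cq27, cq28, cq29, cq30,
    cq31, cq32, cq33, cq34, cq35, cq36, cq37, cq38, cq39, cq40, cq41, cq42, cq43, cq44, cq45,
    cq46, cq47, cq48, cq49, cq50, cq51, cq52, cq53, cq54, cq55, cq56, cq57, cq58, cq59, cq60,
    cq61, cq62, cq63]

/-- the sign of an attachment -/
noncomputable def sg (c i : ℕ) : ℝ := if ti c i % 2 = 0 then 1 else -1

/-- the coefficients of an attachment -/
noncomputable def uc (c i a : ℕ) : ℝ := if a = ti c i / 2 then sg c i else 0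

theorem ti_lt {c i : ℕ} (hc : c < 64) (hi : i < 64) : ty c < 13 ∧ ti c i < 112 := by
  have h := nall_true cti c hc
  rw [Bool.and_eq_true] at h
  have h1 : Nat.blt (ty c) 13 = true := h.1
  have h2 : Nat.blt (ti c i) 112 = true := nall_true h.2 i hi
  exact ⟨by simpa [Nat.blt] using h1, by simpa [Nat.blt] using h2⟩

theorem q3_eq {c i j : ℕ} (hc : c < 64) (hi : i < 64) (hj : j < 64) :
    (q3 c i j : ℝ) = 32768 - 1536 * (tc c : ℝ) +
      ∑ a ∈ range 56, ∑ b ∈ range 56, uc c i a * uc c j b * ((gt (ty c) a b : ℝ) - 32768) := by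
  have h : cq c i j = true := nall_true (nall_true (chkq_all hc) i hi) j hj
  have h2 := Nat.eq_of_beq_eq_true h
  obtain ⟨-, hti⟩ := ti_lt hc hi
  obtain ⟨-, htj⟩ := ti_lt hc hj
  have e : ∑ a ∈ range 56, ∑ b ∈ range 56, uc c i a * uc c j b * ((gt (ty c) a b : ℝ) - 32768) =
      sg c i * sg c j * ((gt (ty c) (ti c i / 2) (ti c j / 2) : ℝ) - 32768) := by
    have e1 : ∀ a ∈ range 56, ∑ b ∈ range 56,
        uc c i a * uc c j b * ((gt (ty c) a b : ℝ) - 32768) =
        uc c i a * (sg c j * ((gt (ty c) a (ti c j / 2) : ℝ) - 32768)) := by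
      intro a _
      rw [sum_eq_single (ti c j / 2)]
      · unfold uc
        rw [if_pos rfl]
        ring
      · intro b _ hb
        unfold uc
        rw [if_neg hb]
        ring
      · intro hb
        exact absurd (mem_range.mpr (by omega)) hb
    rw [sum_congr rfl e1, sum_eq_single (ti c i / 2)]
    · unfold uc
      rw [if_pos rfl]
      ring
    · intro b _ hb
      unfold uc
      rw [if_neg hb]
      ring
    · intro hb
      exact absurd (mem_range.mpr (by omega)) hb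
  rw [e]
  have hd : Nat.div (ti c i) 2 = ti c i / 2 := rfl
  have hd2 : Nat.div (ti c j) 2 = ti c j / 2 := rfl
  have hm : Nat.mod (ti c i) 2 = ti c i % 2 := rfl
  have hm2 : Nat.mod (ti c j) 2 = ti c j % 2 := rfl
  rw [hd, hd2, hm, hm2] at h2
  by_cases hs : ti c i % 2 = ti c j % 2
  · have hb : Nat.beq (ti c i % 2) (ti c j % 2) = true := by
      rw [hs]; exact Nat.beq_refl _
    rw [hb] at h2
    simp only [cond_true, Nat.add_eq, Nat.mul_eq] at h2
    have hss : sg c i * sg c j = 1 := by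
      unfold sg
      rw [hs]
      split_ifs <;> norm_num
    rw [hss]
    have h3 : ((q3 c i j + 1536 * tc c + 32768 : ℕ) : ℝ) =
      ((32768 + gt (ty c) (ti c i / 2) (ti c j / 2) : ℕ) : ℝ) := by exact_mod_cast h2
    push_cast at h3
    linarith
  · have hb : Nat.beq (ti c i % 2) (ti c j % 2) = false := by
      rcases hbb : Nat.beq (ti c i % 2) (ti c j % 2) with _ | _
      · rfl
      · exact absurd (Nat.eq_of_beq_eq_true hbb) hs
    rw [hb] at h2
    simp only [cond_false, Nat.add_eq, Nat.mul_eq] at h2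
    have hss : sg c i * sg c j = -1 := by
      unfold sg
      rcases Nat.mod_two_eq_zero_or_one (ti c i) with h3 | h3 <;>
      rcases Nat.mod_two_eq_zero_or_one (ti c j) with h4 | h4
      · exact absurd (h3.trans h4.symm) hs
      · rw [h3, h4]; norm_num
      · rw [h3, h4]; norm_num
      · exact absurd (h3.trans h4.symm) hs
    rw [hss]
    have h3 : ((q3 c i j + 1536 * tc c + gt (ty c) (ti c i / 2) (ti c j / 2) : ℕ) : ℝ) =
      ((32768 + 32768 : ℕ) : ℝ) := by exact_mod_cast h2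
    push_cast at h3
    linarith

/-- the form of a labelled triple -/
theorem form3 {c : ℕ} (hc : c < 64) {V : Type} [Fintype V] (w : V → ℝ) (h1 : ∑ v, w v = 1)
    (i : V → ℕ) (hi : ∀ v, i v < 64) :
    32768 - 1536 * (tc c : ℝ) ≤ ∑ d, ∑ e, w d * w e * (q3 c (i d) (i e) : ℝ) := by
  have p := psd_of_G 56 (fun a b => (gt (ty c) a b : ℝ) - 32768)
    (G_psd (lt_trans (ti_lt hc (by norm_num : 0 < 64)).1 (by norm_num))) w
    (fun d a => uc c (i d) a)
  have e1 : ∑ d, ∑ e, w d * w e * (q3 c (i d) (i e) : ℝ) =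
      (32768 - 1536 * (tc c : ℝ)) + ∑ d, ∑ e, w d * w e * ∑ a ∈ range 56, ∑ b ∈ range 56,
        uc c (i d) a * uc c (i e) b * ((gt (ty c) a b : ℝ) - 32768) := by
    have s1 : (32768 - 1536 * (tc c : ℝ)) =
        ∑ d, ∑ e, w d * w e * (32768 - 1536 * (tc c : ℝ)) := by
      have : ∀ d, ∑ e, w d * w e * (32768 - 1536 * (tc c : ℝ)) =
          w d * (32768 - 1536 * (tc c : ℝ)) := by
        intro d
        rw [← sum_mul, ← mul_sum, h1, mul_one]
      rw [sum_congr rfl fun d _ => this d, ← sum_mul, h1, one_mul]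
    nth_rewrite 1 [s1]
    rw [← sum_add_distrib]
    refine sum_congr rfl fun d _ => ?_
    rw [← sum_add_distrib]
    refine sum_congr rfl fun e _ => ?_
    rw [q3_eq hc (hi d) (hi e)]
    ring
  rw [e1]
  linarith

theorem q1_eq {i j : ℕ} (hi : i < 64) (hj : j < 64) :
    (q1 i j : ℝ) = 32768 + ∑ a ∈ range 23, ∑ b ∈ range 23,
      ((ut i a : ℝ) - 8) * ((ut j b : ℝ) - 8) * ((gt 13 a b : ℝ) - 32768) := by
  have h : cu i j = true := nall_true (nall_true cuu i hi) j hj
  have h2 := Nat.eq_of_beq_eq_true h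
  simp only [nsum_eq] at h2
  simp only [Nat.add_eq, Nat.mul_eq] at h2
  have h3 := congrArg (fun n : ℕ => (n : ℝ)) h2
  push_cast at h3
  have e : ∑ a ∈ range 23, ∑ b ∈ range 23,
      ((ut i a : ℝ) - 8) * ((ut j b : ℝ) - 8) * ((gt 13 a b : ℝ) - 32768) =
      (∑ a ∈ range 23, (ut i a : ℝ) * ∑ b ∈ range 23, (gt 13 a b : ℝ) * (ut j b : ℝ))
      + (∑ a ∈ range 23, ∑ b ∈ range 23, (gt 13 a b : ℝ) * 64)
      + (∑ a ∈ range 23, ∑ b ∈ range 23, 32768 * (8 * ((ut i a : ℝ) + (ut j b : ℝ))))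
      - (∑ a ∈ range 23, 8 * ∑ b ∈ range 23, (gt 13 a b : ℝ) * (ut j b : ℝ))
      - (∑ a ∈ range 23, (ut i a : ℝ) * ∑ b ∈ range 23, (gt 13 a b : ℝ) * 8)
      - (∑ a ∈ range 23, 32768 * ∑ b ∈ range 23, ((ut i a : ℝ) * (ut j b : ℝ) + 64)) := by
    simp only [mul_sum (s := range 23) (f := fun b => (gt 13 _ b : ℝ) * (ut j b : ℝ)),
      mul_sum (s := range 23) (f := fun b => (gt 13 _ b : ℝ) * 8),
      mul_sum (s := range 23) (f := fun b => ((ut i _ : ℝ) * (ut j b : ℝ) + 64))]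
    simp only [← sum_add_distrib, ← sum_sub_distrib]
    exact sum_congr rfl fun a _ => sum_congr rfl fun b _ => by ring
  rw [e]
  linarith

theorem G13_psd (z : ℕ → ℝ) :
    0 ≤ ∑ a ∈ range 23, ∑ b ∈ range 23, z a * z b * ((gt 13 a b : ℝ) - 32768) := by
  have h := G_psd (by norm_num : 13 < 14) fun a => if a < 23 then z a else 0
  have e : ∑ a ∈ range 56, ∑ b ∈ range 56, (if a < 23 then z a else 0) *
      (if b < 23 then z b else 0) * ((gt 13 a b : ℝ) - 32768) =
      ∑ a ∈ range 23, ∑ b ∈ range 23, z a * z b * ((gt 13 a b : ℝ) - 32768) := by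
    have hsub : range 23 ⊆ range 56 := range_subset_range.mpr (by norm_num)
    rw [← sum_subset hsub]
    · refine sum_congr rfl fun a ha => ?_
      rw [← sum_subset hsub]
      · refine sum_congr rfl fun b hb => ?_
        rw [if_pos (mem_range.mp ha), if_pos (mem_range.mp hb)]
      · intro b _ hb
        rw [if_neg (fun h => hb (mem_range.mpr h))]
        ring
    · intro a _ ha
      refine sum_eq_zero fun b _ => ?_
      rw [if_neg (fun h => ha (mem_range.mpr h))]
      ring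
  rw [← e]
  exact h

theorem form1 {W : Type} [Fintype W] (w : W → ℝ) (h1 : ∑ v, w v = 1)
    (i : W → ℕ) (hi : ∀ v, i v < 64) :
    32768 ≤ ∑ d, ∑ e, w d * w e * (q1 (i d) (i e) : ℝ) := by
  have p := psd_of_G 23 (fun a b => (gt 13 a b : ℝ) - 32768) G13_psd w
    (fun d a => (ut (i d) a : ℝ) - 8)
  have e1 : ∑ d, ∑ e, w d * w e * (q1 (i d) (i e) : ℝ) =
      32768 + ∑ d, ∑ e, w d * w e * ∑ a ∈ range 23, ∑ b ∈ range 23,
        ((ut (i d) a : ℝ) - 8) * ((ut (i e) b : ℝ) - 8) * ((gt 13 a b : ℝ) - 32768) := by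
    have s1 : (32768 : ℝ) = ∑ d, ∑ e, w d * w e * (32768 : ℝ) := by
      have : ∀ d, ∑ e, w d * w e * (32768 : ℝ) = w d * 32768 := by
        intro d
        rw [← sum_mul, ← mul_sum, h1, mul_one]
      rw [sum_congr rfl fun d _ => this d, ← sum_mul, h1, one_mul]
    nth_rewrite 1 [s1]
    rw [← sum_add_distrib]
    refine sum_congr rfl fun d _ => ?_
    rw [← sum_add_distrib]
    refine sum_congr rfl fun e _ => ?_
    rw [q1_eq (hi d) (hi e)]
    ring
  rw [e1]
  linarith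

end Pool.Agent.H63.MG
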