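import Mathlib.Data.Nat.Notation

/-! Kernel-reducible definitions for the flag certificate. -/

set_option autoImplicit false
set_option maxRecDepth 100000

namespace Pool.Agent.H63.MG

/-- code of three relations -/
def cd (x y z : ℕ) : ℕ := Nat.add x (Nat.add (Nat.mul 4 y) (Nat.mul 16 z))

/-- compatible pairs of relation codes `(rel x y, rel y x)` -/
def Pr (d e : ℕ) : Prop := (d = 0 ∧ e = 0) ∨ (d = 1 ∧ e = 2) ∨ (d = 2 ∧ e = 1) ∨ (d = 3 ∧ e = 3)

def A4 (f : ℕ → ℕ → Bool) : Bool := and (f 0 0) (and (f 1 2) (and (f 2 1) (f 3 3)))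

def nsum (n : ℕ) (f : ℕ → ℕ) : ℕ := Nat.rec 0 (fun k s => Nat.add s (f k)) n
def nall (n : ℕ) (f : ℕ → Bool) : Bool := Nat.rec true (fun k s => and s (f k)) n

/-- the distance of two natural numbers -/
def dist (x y : ℕ) : ℕ := Nat.add (Nat.sub x y) (Nat.sub y x)

def TT : ℕ := 0x210f214465113f
/-- the triple with the given code is dominated -/
def tc (c : ℕ) : ℕ := Nat.mod (Nat.shiftRight TT c) 2

/-- none of the ten triples is dominated -/
def tf (d01 d02 d03 d04 d12 d13 d14 d23 d24 d34 : ℕ) : Bool :=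
  and (Nat.beq (tc (cd d01 d02 d12)) 0) (and (Nat.beq (tc (cd d01 d03 d13)) 0)
  (and (Nat.beq (tc (cd d01 d04 d14)) 0) (and (Nat.beq (tc (cd d02 d03 d23)) 0)
  (and (Nat.beq (tc (cd d02 d04 d24)) 0) (and (Nat.beq (tc (cd d03 d04 d34)) 0)
  (and (Nat.beq (tc (cd d12 d13 d23)) 0) (and (Nat.beq (tc (cd d12 d14 d24)) 0)
  (and (Nat.beq (tc (cd d13 d14 d34)) 0) (Nat.beq (tc (cd d23 d24 d34)) 0)))))))))

def TB : ℕ := 0xfffffffffffffffffffffffffffffffffffffffffffffffffffeffccf8880000fffffffffffffffffffffffffffffffffffaff80f0808080fffaff00f0000000fffffffffffffffffff8ff00f888a000fff8ff80f8888080fff8ff00f8880000fff0ff80fc80ec80fff0ff00f000a000fff0ff80f0808080fff0ff00f0000000fffffffffffffffffefeeccca888a000fffffffffffffffffefecccc88880000fefaec80ec80ec80fafaa000a000a000fafa808080808080fafa000000000000fcf8ec80ec88ec80f8f8a000a888a000f8f8808088888080f8f8000088880000fcf0ec80ec80ec80f0f0a000a000a000f0f0808080808080f0f0000000000000fffffffffffffffffeeeecccf888a000feeeccccf8888080feeeccccf8880000feaaec80fc80ec80faaaa000f000a000faaa8080f0808080faaa0000f0000000fffffffffffffffff888a000f888a000f8888080f8888080f8880000f8880000fc80ec80fc80ec80f000a000f000a000f0808080f0808080f0000000f0000000eeeeecccec88ec80eeeeeccca888a000eeeecccc88888080eeeecccc88880000eeaaec80ec80ec80aaaaa000a000a000aaaa808080808080aaaa000000000000ec88ec80ec88ec80a888a000a888a00088888080888880808888000088880000ec80ec80ec80ec80a000a000a000a00080808080808080800000000000000000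
/-- four vertices with these relations have a bad neutral blow-up -/
def b4 (x y z u v w : ℕ) : ℕ :=
  Nat.mod (Nat.shiftRight TB (Nat.add (cd x y z) (Nat.mul 64 (cd u v w)))) 2

end Pool.Agent.H63.MG
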