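import Pool.Agent.H63.MG.Asym
import Pool.Agent.H63.MG.Bridge

/-! Passage from dominated triples to the 3-graph. -/

set_option autoImplicit false

namespace Pool.Agent.H63.MG

open Finset
open Pool.Agent.H63.MGS

theorem ch3 (n : ℕ) : (6 : ℝ) * (n.choose 3 : ℝ) = n * (n - 1) * (n - 2) := by
  have h := Nat.descFactorial_eq_factorial_mul_choose n 3
  rcases n with _ | _ | n
  · simp
  · simp [Nat.choose]
  · simp only [Nat.descFactorial, Nat.factorial] at h
    have h2 : (6 * (n + 1 + 1).choose 3 : ℕ) = (n + 2) * (n + 1) * n := by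
      have h3 : n + 1 + 1 - 2 = n := by omega
      have h4 : n + 1 + 1 - 1 = n + 1 := by omega
      rw [h3, h4] at h
      simp only [Nat.sub_zero, mul_one] at h
      nlinarith
    have h5 : ((6 * (n + 1 + 1).choose 3 : ℕ) : ℝ) = (((n + 2) * (n + 1) * n : ℕ) : ℝ) := by rw [h2]
    push_cast at h5 ⊢
    linarith

theorem to_choose (n : ℕ) (ε : ℝ) (hε : 0 < ε) (hn : 6 * (3 / 4 + ε) / ε ≤ n) :
    (3 / 4 + ε / 2) * (n : ℝ) ^ 3 ≤ 6 * ((3 / 4 + ε) * (n.choose 3 : ℝ)) := by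
  have h := ch3 n
  rw [div_le_iff₀ hε] at hn
  have h0 : (0 : ℝ) ≤ n := Nat.cast_nonneg _
  have e : 6 * ((3 / 4 + ε) * (n.choose 3 : ℝ)) = (3 / 4 + ε) * (n * (n - 1) * (n - 2)) := by
    rw [← h]; ring
  rw [e]
  have h1 : 0 ≤ (n : ℝ) ^ 2 * (n * ε - 6 * (3 / 4 + ε)) := mul_nonneg (by positivity) (by linarith)
  have h2 : 0 ≤ (3 / 4 + ε) * (2 * (n : ℝ)) := by positivity
  nlinarith

theorem few_transitive (r : ℕ) (ε : ℝ) (hε : 0 < ε) : ∃ δ : ℝ, 0 < δ ∧ ∃ n₀ : ℕ, ∀ n : ℕ, n₀ ≤ n →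
      ∀ G : MixedGraph (Fin n), K53Free G.threeGraph →
        (G.transitiveCount r : ℝ) ≤ δ * (n : ℝ) ^ r →
        (G.threeGraph.card : ℝ) ≤ (3 / 4 + ε) * (n.choose 3 : ℝ) := by
  classical
  obtain ⟨δ, hδ, n1, h1⟩ := asym1 r (ε / 2) (by positivity)
  obtain ⟨n2, hn2⟩ : ∃ n2 : ℕ, 6 * (3 / 4 + ε) / ε ≤ (n2 : ℝ) := exists_nat_ge _
  refine ⟨δ, hδ, max n1 n2, fun n hn G hG hT => ?_⟩
  have hgood : Good (code G) := ⟨code_pr G, code_self G, free5 G hG⟩
  have ht : ((univ.filter fun f : Fin r → Fin n => Chain (code G) r f).card : ℝ)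
      ≤ δ * (Fintype.card (Fin n) : ℝ) ^ r := by
    rw [Fintype.card_fin]
    refine le_trans (le_of_eq ?_) hT
    unfold MixedGraph.transitiveCount
    congr 2
    ext f
    simp only [mem_filter, mem_univ, true_and]
    exact forall_congr' fun i => forall_congr' fun j => forall_congr' fun _ => code_one G _ _
  have h2 := h1 (Fin n) (by rw [Fintype.card_fin]; exact (le_max_left _ _).trans hn) (code G)
    hgood (by convert ht)
  rw [Fintype.card_fin] at h2
  have h3 : (6 : ℝ) * (G.threeGraph.card : ℝ)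
      + ∑ a, ∑ b, ∑ d, (tc (c3 (code G) a b d) : ℝ) ≤ (n : ℝ) ^ 3 := by
    exact_mod_cast tri_count G
  have h4 := to_choose n ε hε (hn2.trans (by exact_mod_cast (le_max_right _ _).trans hn))
  nlinarith

end Pool.Agent.H63.MG
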