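import Mathlib
import Pool.Agent.H63.MG.TabP

/-! Positive semidefinite forms from tables. -/

set_option autoImplicit false
set_option maxRecDepth 100000
open Finset

namespace Pool.Agent.H63.MG

theorem nsum_eq (n : ℕ) (f : ℕ → ℕ) : nsum n f = ∑ k ∈ range n, f k := by
  induction n with
  | zero => rfl
  | succ n ih => rw [sum_range_succ, ← ih]; rfl

theorem nall_true {n : ℕ} {f : ℕ → Bool} (h : nall n f = true) : ∀ k < n, f k = true := by
  induction n with
  | zero => intro k hk; omega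
  | succ n ih =>
    have h' : (nall n f && f n) = true := h
    rw [Bool.and_eq_true] at h'
    intro k hk
    rcases Nat.lt_succ_iff_lt_or_eq.mp hk with hk | rfl
    · exact ih h'.1 k hk
    · exact h'.2

theorem A4_true {f : ℕ → ℕ → Bool} (h : A4 f = true) {d e : ℕ} (hd : Pr d e) : f d e = true := by
  have h' : (f 0 0 && (f 1 2 && (f 2 1 && f 3 3))) = true := h
  simp only [Bool.and_eq_true] at h'
  rcases hd with ⟨rfl, rfl⟩ | ⟨rfl, rfl⟩ | ⟨rfl, rfl⟩ | ⟨rfl, rfl⟩
  exacts [h'.1, h'.2.1, h'.2.2.1, h'.2.2.2]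

theorem dist_cast (x y : ℕ) : ((dist x y : ℕ) : ℝ) = |(x : ℝ) - y| := by
  have : dist x y = (x - y) + (y - x) := rfl
  rw [this]
  rcases Nat.le_total x y with h | h
  · rw [Nat.sub_eq_zero_of_le h, zero_add, Nat.cast_sub h, abs_of_nonpos (by
      have : (x : ℝ) ≤ y := by exact_mod_cast h
      linarith)]
    ring
  · rw [Nat.sub_eq_zero_of_le h, add_zero, Nat.cast_sub h, abs_of_nonneg (by
      have : (y : ℝ) ≤ x := by exact_mod_cast h
      linarith)]

/-- a symmetric diagonally dominant matrix is positive semidefinite -/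
theorem dom_psd (N : ℕ) (R : ℕ → ℕ → ℝ) (hs : ∀ a < N, ∀ b < N, R a b = R b a)
    (hd : ∀ a < N, ∑ b ∈ range N, |R a b| ≤ 2 * R a a) (z : ℕ → ℝ) :
    0 ≤ ∑ a ∈ range N, ∑ b ∈ range N, z a * z b * R a b := by
  have h1 : ∀ a ∈ range N, ∀ b ∈ range N, z a * z b * R a b ≥
      -(|R a b| * (z a ^ 2 + z b ^ 2) / 2) + (if a = b then 2 * R a a * z a ^ 2 else 0) := by
    intro a ha b hb
    split_ifs with h
    · subst h
      have h0 : 0 ≤ R a a := by
        have := hd a (mem_range.mp ha)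
        have h2 : 0 ≤ ∑ b ∈ range N, |R a b| := sum_nonneg fun _ _ => abs_nonneg _
        linarith
      rw [abs_of_nonneg h0]
      nlinarith
    · rcases abs_cases (R a b) with ⟨h2, h3⟩ | ⟨h2, h3⟩
      · rw [h2]
        nlinarith [mul_nonneg h3 (sq_nonneg (z a + z b))]
      · rw [h2]
        nlinarith [mul_nonneg (by linarith : 0 ≤ -R a b) (sq_nonneg (z a - z b))]
  have h2 : ∑ a ∈ range N, ∑ b ∈ range N, (-(|R a b| * (z a ^ 2 + z b ^ 2) / 2) +
      (if a = b then 2 * R a a * z a ^ 2 else 0)) ≤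
      ∑ a ∈ range N, ∑ b ∈ range N, z a * z b * R a b :=
    sum_le_sum fun a ha => sum_le_sum fun b hb => h1 a ha b hb
  refine le_trans ?_ h2
  have h3 : ∑ a ∈ range N, ∑ b ∈ range N, (-(|R a b| * (z a ^ 2 + z b ^ 2) / 2) +
      (if a = b then 2 * R a a * z a ^ 2 else 0)) =
      -(1 / 2) * (∑ a ∈ range N, ∑ b ∈ range N, |R a b| * z a ^ 2)
        - (1 / 2) * (∑ a ∈ range N, ∑ b ∈ range N, |R a b| * z b ^ 2)
        + ∑ a ∈ range N, 2 * R a a * z a ^ 2 := by
    have e1 : ∑ a ∈ range N, ∑ b ∈ range N, (if a = b then 2 * R a a * z a ^ 2 else 0)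
        = ∑ a ∈ range N, 2 * R a a * z a ^ 2 := by
      refine sum_congr rfl fun a ha => ?_
      rw [sum_ite_eq, if_pos ha]
    rw [← e1, mul_sum, mul_sum, ← sum_sub_distrib, ← sum_add_distrib]
    refine sum_congr rfl fun a _ => ?_
    rw [mul_sum, mul_sum, ← sum_sub_distrib, ← sum_add_distrib]
    exact sum_congr rfl fun b _ => by ring
  have h4 : ∑ a ∈ range N, ∑ b ∈ range N, |R a b| * z b ^ 2 =
      ∑ a ∈ range N, ∑ b ∈ range N, |R a b| * z a ^ 2 := by
    rw [sum_comm]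
    refine sum_congr rfl fun a ha => sum_congr rfl fun b hb => ?_
    rw [hs b (mem_range.mp hb) a (mem_range.mp ha)]
  have h5 : ∑ a ∈ range N, ∑ b ∈ range N, |R a b| * z a ^ 2 ≤
      ∑ a ∈ range N, 2 * R a a * z a ^ 2 := by
    refine sum_le_sum fun a ha => ?_
    rw [← sum_mul]
    exact mul_le_mul_of_nonneg_right (hd a (mem_range.mp ha)) (sq_nonneg _)
  rw [h3, h4]
  linarith

theorem sq_psd (N M : ℕ) (l : ℕ → ℕ → ℝ) (z : ℕ → ℝ) :
    0 ≤ ∑ a ∈ range N, ∑ b ∈ range N, z a * z b * ∑ k ∈ range M, l a k * l b k := by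
  have h : ∑ a ∈ range N, ∑ b ∈ range N, z a * z b * ∑ k ∈ range M, l a k * l b k
      = ∑ k ∈ range M, (∑ a ∈ range N, z a * l a k) * ∑ b ∈ range N, z b * l b k := by
    simp only [Finset.sum_mul_sum]
    calc ∑ a ∈ range N, ∑ b ∈ range N, z a * z b * ∑ k ∈ range M, l a k * l b k
        = ∑ a ∈ range N, ∑ k ∈ range M, ∑ b ∈ range N, z a * l a k * (z b * l b k) := by
          refine sum_congr rfl fun a _ => ?_
          rw [sum_comm]
          refine sum_congr rfl fun b _ => ?_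
          rw [mul_sum]
          exact sum_congr rfl fun k _ => by ring
      _ = _ := sum_comm
  rw [h]
  exact sum_nonneg fun k _ => mul_self_nonneg _

theorem rs_cast (t a : ℕ) : ((rs t a : ℕ) : ℝ) = ∑ k ∈ range 56, (lt t a k : ℝ) := by
  unfold rs
  rw [nsum_eq]
  push_cast
  rfl

/-- the remainder -/
theorem rem_eq (t a b : ℕ) : ((rx t a b : ℕ) : ℝ) - (ry t a b : ℕ) =
    (sc t : ℝ) * ((gt t a b : ℝ) - 32768) -
      ∑ k ∈ range 56, ((lt t a k : ℝ) - 32768) * ((lt t b k : ℝ) - 32768) := by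
  have e1 : ((rx t a b : ℕ) : ℝ) = (sc t : ℝ) * (gt t a b : ℝ) +
      32768 * ((∑ k ∈ range 56, (lt t a k : ℝ)) + ∑ k ∈ range 56, (lt t b k : ℝ)) := by
    unfold rx
    simp only [Nat.add_eq, Nat.mul_eq]
    push_cast
    rw [rs_cast, rs_cast]
  have e2 : ((ry t a b : ℕ) : ℝ) = ∑ k ∈ range 56, (lt t a k : ℝ) * (lt t b k : ℝ) +
      ((sc t : ℝ) * 32768 + 60129542144) := by
    unfold ry
    rw [nsum_eq]
    simp only [Nat.add_eq, Nat.mul_eq]
    push_cast
    rfl
  have e3 : ∑ k ∈ range 56, ((lt t a k : ℝ) - 32768) * ((lt t b k : ℝ) - 32768) =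
      ∑ k ∈ range 56, (lt t a k : ℝ) * (lt t b k : ℝ)
        - 32768 * ((∑ k ∈ range 56, (lt t a k : ℝ)) + ∑ k ∈ range 56, (lt t b k : ℝ))
        + 60129542144 := by
    have : (60129542144 : ℝ) = ∑ k ∈ range 56, (32768 * 32768 : ℝ) := by
      rw [sum_const, card_range]; norm_num
    rw [this, ← sum_add_distrib, mul_sum, ← sum_sub_distrib, ← sum_add_distrib]
    exact sum_congr rfl fun k _ => by ring
  rw [e1, e2, e3]
  ring

theorem g_psd (t : ℕ) (hd : chkd t = true) (hs : chks t = true) (hp : 0 < sc t) (z : ℕ → ℝ) :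
    0 ≤ ∑ a ∈ range 56, ∑ b ∈ range 56, z a * z b * ((gt t a b : ℝ) - 32768) := by
  set R : ℕ → ℕ → ℝ := fun a b => ((rx t a b : ℕ) : ℝ) - (ry t a b : ℕ) with hR
  have hsym : ∀ a < 56, ∀ b < 56, gt t a b = gt t b a := fun a ha b hb =>
    Nat.eq_of_beq_eq_true (nall_true (nall_true hs a ha) b hb)
  have h1 : 0 ≤ ∑ a ∈ range 56, ∑ b ∈ range 56, z a * z b * R a b := by
    refine dom_psd 56 R ?_ ?_ z
    · intro a ha b hb
      simp only [hR]
      rw [rem_eq, rem_eq, hsym a ha b hb]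
      congr 1
      exact sum_congr rfl fun k _ => mul_comm _ _
    · intro a ha
      have h := Nat.le_of_ble_eq_true (nall_true hd a ha)
      rw [nsum_eq] at h
      simp only [Nat.add_eq, Nat.mul_eq] at h
      have h2 : ((∑ b ∈ range 56, dist (rx t a b) (ry t a b) + 2 * ry t a a : ℕ) : ℝ) ≤
          ((2 * rx t a a : ℕ) : ℝ) := by exact_mod_cast h
      push_cast at h2
      simp only [dist_cast] at h2
      simp only [hR]
      linarith
  have h2 := sq_psd 56 56 (fun a k => (lt t a k : ℝ) - 32768) z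
  have h3 : (sc t : ℝ) * ∑ a ∈ range 56, ∑ b ∈ range 56, z a * z b * ((gt t a b : ℝ) - 32768) =
      ∑ a ∈ range 56, ∑ b ∈ range 56, z a * z b * R a b +
      ∑ a ∈ range 56, ∑ b ∈ range 56, z a * z b *
        ∑ k ∈ range 56, ((lt t a k : ℝ) - 32768) * ((lt t b k : ℝ) - 32768) := by
    rw [mul_sum, ← sum_add_distrib]
    refine sum_congr rfl fun a _ => ?_
    rw [mul_sum, ← sum_add_distrib]
    refine sum_congr rfl fun b _ => ?_
    simp only [hR]
    rw [rem_eq]
    ring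
  have h4 : 0 ≤ (sc t : ℝ) * ∑ a ∈ range 56, ∑ b ∈ range 56,
      z a * z b * ((gt t a b : ℝ) - 32768) := by
    rw [h3]; exact add_nonneg h1 h2
  have h5 : (0 : ℝ) < sc t := by exact_mod_cast hp
  exact nonneg_of_mul_nonneg_right h4 h5

/-- forms with coefficients -/
theorem psd_of_G (N : ℕ) (G : ℕ → ℕ → ℝ)
    (hG : ∀ z : ℕ → ℝ, 0 ≤ ∑ a ∈ range N, ∑ b ∈ range N, z a * z b * G a b)
    {V : Type} [Fintype V] (w : V → ℝ) (u : V → ℕ → ℝ) :
    0 ≤ ∑ d, ∑ e, w d * w e * ∑ a ∈ range N, ∑ b ∈ range N, u d a * u e b * G a b := by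
  have h := hG fun a => ∑ d, w d * u d a
  have e : ∑ a ∈ range N, ∑ b ∈ range N, (∑ d, w d * u d a) * (∑ d, w d * u d b) * G a b =
      ∑ d, ∑ e, w d * w e * ∑ a ∈ range N, ∑ b ∈ range N, u d a * u e b * G a b := by
    calc ∑ a ∈ range N, ∑ b ∈ range N, (∑ d, w d * u d a) * (∑ d, w d * u d b) * G a b
        = ∑ a ∈ range N, ∑ b ∈ range N, ∑ d, ∑ e, w d * w e * (u d a * u e b * G a b) := by
          refine sum_congr rfl fun a _ => sum_congr rfl fun b _ => ?_
          rw [sum_mul_sum, sum_mul]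
          refine sum_congr rfl fun d _ => ?_
          rw [sum_mul]
          exact sum_congr rfl fun e _ => by ring
      _ = ∑ a ∈ range N, ∑ d, ∑ e, ∑ b ∈ range N, w d * w e * (u d a * u e b * G a b) := by
          refine sum_congr rfl fun a _ => ?_
          rw [sum_comm]
          refine sum_congr rfl fun d _ => ?_
          rw [sum_comm]
      _ = ∑ d, ∑ e, ∑ a ∈ range N, ∑ b ∈ range N, w d * w e * (u d a * u e b * G a b) := by
          rw [sum_comm]
          refine sum_congr rfl fun d _ => ?_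
          rw [sum_comm]
      _ = _ := by
          refine sum_congr rfl fun d _ => sum_congr rfl fun e _ => ?_
          rw [mul_sum]
          refine sum_congr rfl fun a _ => ?_
          rw [mul_sum]
  rw [← e]
  exact h

end Pool.Agent.H63.MG
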